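import Pool.Agent.StrongChow.Degree

/-!
# The degree of a divisor class on a torus quotient stack
-/

open MvPolynomial

noncomputable section

namespace Pool.Agent.StrongChow

universe u

theorem vanishingOrder_bot {R : Type u} [CommRing R] (Q : Ideal R) [Q.IsPrime] (a : R) :
    vanishingOrder ⊥ Q a =
      (Ring.ord (Localization.AtPrime Q) (algebraMap R (Localization.AtPrime Q) a)).toNat := by
  unfold vanishingOrder Ring.ord
  rw [bot_sup_eq, Ideal.map_span, Set.image_singleton]

theorem vanishingOrder_pow {R : Type u} [CommRing R] [IsDomain R] {q : R} (hq : Prime q)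
    (Q : Ideal R) [Q.IsPrime] (hQ : Q = Ideal.span {q}) (n : ℕ) (b : R) (hb : b ∉ Q) :
    vanishingOrder ⊥ Q (q ^ n * b) = n := by
  subst hQ
  rw [vanishingOrder_bot]
  have hb' : IsUnit (algebraMap R (Localization.AtPrime (Ideal.span {q})) b) :=
    (IsLocalization.AtPrime.isUnit_to_map_iff _ (Ideal.span {q}) b).mpr hb
  have hinj : Function.Injective (algebraMap R (Localization.AtPrime (Ideal.span {q}))) :=
    IsLocalization.injective _ (Ideal.span {q}).primeCompl_le_nonZeroDivisors
  have hq0 : algebraMap R (Localization.AtPrime (Ideal.span {q})) q ∈ nonZeroDivisors _ := by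
    apply mem_nonZeroDivisors_of_ne_zero
    rw [Ne, map_eq_zero_iff _ hinj]
    exact hq.ne_zero
  have hord : Ring.ord (Localization.AtPrime (Ideal.span {q}))
      (algebraMap R (Localization.AtPrime (Ideal.span {q})) q) = 1 := by
    unfold Ring.ord
    rw [Module.length_eq_one_iff, isSimpleModule_iff_isCoatom]
    have : Ideal.span {algebraMap R (Localization.AtPrime (Ideal.span {q})) q} =
        IsLocalRing.maximalIdeal (Localization.AtPrime (Ideal.span {q})) := by
      rw [← Localization.AtPrime.map_eq_maximalIdeal, Ideal.map_span, Set.image_singleton]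
    rw [this]
    exact (IsLocalRing.maximalIdeal.isMaximal _).out
  rw [map_mul, map_pow, Ring.ord_mul_of_isUnit_right hb', Ring.ord_pow hq0, hord]
  simp

theorem InvariantSubvariety.ext' {k S : Type u} [Field k] [CommRing S] [Algebra k S] {n : ℕ}
    {𝒜 : (Fin n → ℤ) → Submodule k S} {B : Ideal S} {c : ℕ} {P Q : InvariantSubvariety 𝒜 B c}
    (hPQ : P.I = Q.I) : P = Q := by
  cases P
  cases Q
  cases hPQ
  rfl

section Poly

variable {k : Type u} [Field k] {σ : Type} [Finite σ] {n : ℕ} {w : σ → Fin n → ℤ}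
  {B : Ideal (MvPolynomial σ k)}

/-- A `T`-invariant prime divisor is the zero locus of a homogeneous polynomial. -/
theorem exists_generator (Q : InvariantSubvariety (weightedHomogeneousSubmodule k w) B 1) :
    ∃ (F : MvPolynomial σ k) (α : Fin n → ℤ), Prime F ∧ Q.I = Ideal.span {F} ∧
      IsWeightedHomogeneous w F α := by
  have h1 : Q.I.height = 1 := by simpa using Q.height
  obtain ⟨F, hF, hFp⟩ := Ideal.IsPrime.exists_mem_prime_of_ne_bot Q.prime
    (Ideal.ne_bot_of_height_eq_one h1)
  have h2 := Ideal.eq_span_singleton_of_height_eq_one h1 hF hFp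
  have h3 := Q.homogeneous
  rw [h2] at h3
  obtain ⟨α, hα⟩ := homogeneous_of_span hFp.ne_zero h3
  exact ⟨F, α, hFp, h2, hα⟩

/-- The degree of the equation of a prime divisor. -/
def genDeg (Q : InvariantSubvariety (weightedHomogeneousSubmodule k w) B 1) : Fin n → ℤ :=
  (exists_generator Q).choose_spec.choose

theorem genDeg_eq (Q : InvariantSubvariety (weightedHomogeneousSubmodule k w) B 1)
    {G : MvPolynomial σ k} {β : Fin n → ℤ}
    (hG : G ≠ 0) (hQ : Q.I = Ideal.span {G}) (hβ : IsWeightedHomogeneous w G β) :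
    genDeg Q = β := by
  obtain ⟨hF1, hF2, hF3⟩ := (exists_generator Q).choose_spec.choose_spec
  set F := (exists_generator Q).choose with hF
  have hass : Associated F G := by
    rw [← Ideal.span_singleton_eq_span_singleton, ← hF2, hQ]
  obtain ⟨v, hv⟩ := hass
  obtain ⟨c, hc, hc'⟩ := MvPolynomial.isUnit_iff_eq_C_of_isReduced.mp v.isUnit
  rw [hc'] at hv
  have h1 : IsWeightedHomogeneous w G (genDeg Q) := by
    rw [← hv, mul_comm]
    exact hF3.C_mul c
  exact IsWeightedHomogeneous.inj_right hG h1 hβ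

/-- The invariant prime divisor defined by a homogeneous prime element. -/
def divisorOf {p : MvPolynomial σ k} (hp : Prime p) {α : Fin n → ℤ}
    (hα : IsWeightedHomogeneous w p α) (hB : ¬ B ≤ Ideal.span {p}) :
    InvariantSubvariety (weightedHomogeneousSubmodule k w) B 1 where
  I := Ideal.span {p}
  prime := (Ideal.span_singleton_prime hp.ne_zero).mpr hp
  homogeneous := by
    apply le_antisymm
    · rw [Ideal.span_singleton_le_iff_mem]
      exact Ideal.subset_span ⟨Ideal.mem_span_singleton_self p, α, hα⟩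
    · rw [Ideal.span_le]
      rintro x ⟨hx, -⟩
      exact hx
  height := by
    have h := Ideal.height_span_singleton_eq_one_of_mem_nonZeroDivisors
      (mem_nonZeroDivisors_of_ne_zero hp.ne_zero) hp.not_isUnit
    simpa using h
  meets := hB

/-- Every principal divisor `div(a)`, `a` homogeneous, has the degree of `a`. -/
theorem exists_div (lam : (Fin n → ℤ) →+ ℚ)
    (hB : ∀ p : MvPolynomial σ k, Prime p → ¬ B ≤ Ideal.span {p}) (a : MvPolynomial σ k) :
    ∀ δ, a ≠ 0 → IsWeightedHomogeneous w a δ →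
    ∃ z : Cycles (weightedHomogeneousSubmodule k w) B 1,
      (∀ Q, z Q = (vanishingOrder ⊥ Q.I a : ℚ)) ∧
      Finsupp.linearCombination ℚ (fun Q => lam (genDeg Q)) z = lam δ := by
  classical
  refine UniqueFactorizationMonoid.induction_on_prime a ?_ ?_ ?_
  · intro δ h
    exact absurd rfl h
  · intro x hx δ hx0 hδ
    refine ⟨0, fun Q => ?_, ?_⟩
    · obtain ⟨F, α, hF, hQ, -⟩ := exists_generator Q
      have h1 := vanishingOrder_pow hF Q.I hQ 0 x (fun h => Q.prime.ne_top
        (Ideal.eq_top_of_isUnit_mem _ h hx))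
      rw [pow_zero, one_mul] at h1
      rw [h1]
      simp
    · obtain ⟨c, hc, hc'⟩ := MvPolynomial.isUnit_iff_eq_C_of_isReduced.mp hx
      have h2 := isWeightedHomogeneous_C w c
      rw [← hc'] at h2
      rw [IsWeightedHomogeneous.inj_right hx0 hδ h2]
      simp
  · intro b p hb hp ih δ hpb hδ
    obtain ⟨α, hα⟩ := homogeneous_of_mul hδ hpb
    obtain ⟨β, hβ, hαβ⟩ := degree_of_mul hδ hpb hα
    obtain ⟨z, hz1, hz2⟩ := ih β hb hβ
    let D := divisorOf (B := B) hp hα (hB p hp)
    refine ⟨z + Finsupp.single D 1, fun Q => ?_, ?_⟩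
    · rw [Finsupp.add_apply, hz1, Finsupp.single_apply]
      obtain ⟨F, γ, hF, hQ, -⟩ := exists_generator Q
      obtain ⟨b', hbe, hb'⟩ :=
        (FiniteMultiplicity.of_prime_left hF hb).exists_eq_pow_mul_and_not_dvd
      have hb'' : b' ∉ Q.I := fun h => hb' (Ideal.mem_span_singleton.mp (hQ ▸ h))
      have e1 : vanishingOrder ⊥ Q.I b = multiplicity F b := by
        conv_lhs => rw [hbe]
        exact vanishingOrder_pow hF Q.I hQ _ b' hb''
      by_cases hD : D = Q
      · rw [if_pos hD, e1]
        have hQp : Q.I = Ideal.span {p} := by rw [← hD]; rfl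
        obtain ⟨v, hv⟩ := Ideal.span_singleton_eq_span_singleton.mp (hQ.symm.trans hQp)
        have e2 : p * b = F ^ (multiplicity F b + 1) * (v * b') := by
          conv_lhs => rw [hbe, ← hv]
          ring
        have hvb : (v : MvPolynomial σ k) * b' ∉ Q.I := by
          intro h
          rcases Q.prime.mem_or_mem h with h | h
          · exact Q.prime.ne_top (Ideal.eq_top_of_isUnit_mem _ h v.isUnit)
          · exact hb'' h
        rw [e2, vanishingOrder_pow hF Q.I hQ _ _ hvb]
        push_cast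
        ring
      · rw [if_neg hD, add_zero, e1]
        have hpQ : p ∉ Q.I := by
          intro h
          apply hD
          apply InvariantSubvariety.ext'
          exact (Ideal.eq_span_singleton_of_height_eq_one (by simpa using Q.height) h hp).symm
        have e2 : p * b = F ^ (multiplicity F b) * (p * b') := by
          conv_lhs => rw [hbe]
          ring
        have hpb' : p * b' ∉ Q.I := by
          intro h
          rcases Q.prime.mem_or_mem h with h | h
          · exact hpQ h
          · exact hb'' h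
        rw [e2, vanishingOrder_pow hF Q.I hQ _ _ hpb']
    · rw [map_add, hz2, Finsupp.linearCombination_single, one_smul,
        genDeg_eq D hp.ne_zero rfl hα, ← map_add, add_comm, hαβ]

/-- If every prime divisor meets the open set, then a functional of the degree is well defined on
the Chow group. -/
theorem rationallyTrivial_le_ker (lam : (Fin n → ℤ) →+ ℚ)
    (hB : ∀ p : MvPolynomial σ k, Prime p → ¬ B ≤ Ideal.span {p}) :
    rationallyTrivial (weightedHomogeneousSubmodule k w) B 1 ≤
      LinearMap.ker (Finsupp.linearCombination ℚ (fun Q => lam (genDeg Q))) := by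
  unfold rationallyTrivial
  rw [Submodule.span_le]
  rintro z ⟨h, P, δ, a, b, hh, ha, hb, haP, hbP, hz⟩
  have hh0 : h = 0 := by omega
  subst hh0
  have hP : P.I = ⊥ := by
    rw [← Ideal.height_eq_zero_iff_eq_bot]
    simpa using P.height
  have ha0 : a ≠ 0 := fun h => haP (h ▸ P.I.zero_mem)
  have hb0 : b ≠ 0 := fun h => hbP (h ▸ P.I.zero_mem)
  obtain ⟨za, hza1, hza2⟩ := exists_div lam hB a δ ha0 ha
  obtain ⟨zb, hzb1, hzb2⟩ := exists_div lam hB b δ hb0 hb
  have hzz : z = za - zb := by
    ext Q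
    rw [hz Q, Finsupp.sub_apply, hza1, hzb1, hP]
  rw [SetLike.mem_coe, LinearMap.mem_ker, hzz, map_sub, hza2, hzb2, sub_self]

theorem single_notMem {𝒜 : (Fin n → ℤ) → Submodule k (MvPolynomial σ k)}
    (h𝒜 : 𝒜 = weightedHomogeneousSubmodule k w) (lam : (Fin n → ℤ) →+ ℚ)
    (hB : ∀ p : MvPolynomial σ k, Prime p → ¬ B ≤ Ideal.span {p})
    (Q : InvariantSubvariety 𝒜 B 1) {G : MvPolynomial σ k} {β : Fin n → ℤ} (hG : G ≠ 0)
    (hQ : Q.I = Ideal.span {G}) (hβ : IsWeightedHomogeneous w G β) (hlam : lam β ≠ 0) :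
    (Finsupp.single Q 1 : Cycles 𝒜 B 1) ∉ rationallyTrivial 𝒜 B 1 := by
  subst h𝒜
  intro h
  have h2 := rationallyTrivial_le_ker lam hB h
  rw [LinearMap.mem_ker, Finsupp.linearCombination_single, one_smul, genDeg_eq Q hG hQ hβ] at h2
  exact hlam h2

end Poly

namespace TorusStack

variable {k : Type u} [Field k] (𝒳 : TorusStack k)

theorem cls_ne_zero (lam : (Fin 𝒳.n → ℤ) →+ ℚ)
    (hB : ∀ p : MvPolynomial ((Fin 𝒳.n × Fin (1 + 1)) ⊕ Fin 𝒳.m) k, Prime p →
      ¬ 𝒳.mixedIdeal 1 ≤ Ideal.span {p})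
    (Z : 𝒳.Substack 1) {F : MvPolynomial (Fin 𝒳.m) k} {α : Fin 𝒳.n → ℤ} (hF0 : F ≠ 0)
    (hZ : Z.I = Ideal.span {F})
    (hα : IsWeightedHomogeneous 𝒳.w F α) (hlam : lam α ≠ 0) : 𝒳.cls Z ≠ 0 := by
  intro h
  have h1 := (Submodule.Quotient.mk_eq_zero _).mp h
  refine single_notMem (w := Sum.elim (fun p : Fin 𝒳.n × Fin (1 + 1) => Pi.single p.1 1) 𝒳.w)
    rfl lam hB (𝒳.mixed Z) (G := 𝒳.incl 1 F) ?_ ?_ (isWeightedHomogeneous_rename Sum.inr _ hα)
    hlam h1
  · intro h
    apply hF0
    exact (map_eq_zero_iff _ (rename_injective _ Sum.inr_injective)).mp h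
  · change Z.I.map (𝒳.incl 1) = _
    rw [hZ, Ideal.map_span, Set.image_singleton]

/-- The condition in `cls_ne_zero` follows from: no prime element divides all `f_i`. -/
theorem mixedIdeal_not_le
    (hU : ∀ p : MvPolynomial ((Fin 𝒳.n × Fin (1 + 1)) ⊕ Fin 𝒳.m) k, Prime p →
      ∃ i, ¬ p ∣ 𝒳.incl 1 (𝒳.f i))
    (p : MvPolynomial ((Fin 𝒳.n × Fin (1 + 1)) ⊕ Fin 𝒳.m) k) (hp : Prime p) :
    ¬ 𝒳.mixedIdeal 1 ≤ Ideal.span {p} := by
  intro hle
  have hPp : (Ideal.span {p}).IsPrime := (Ideal.span_singleton_prime hp.ne_zero).mpr hp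
  obtain ⟨i, hi⟩ := hU p hp
  have key : ∀ b : Fin 𝒳.n → Fin (1 + 1), ∃ j, Associated p (X (Sum.inl (j, b j))) := by
    intro b
    have h1 := hle (Ideal.subset_span ⟨(i, b), rfl⟩)
    rcases hPp.mem_or_mem h1 with h2 | h2
    · exact absurd (Ideal.mem_span_singleton.mp h2) hi
    · rw [hPp.prod_mem_iff] at h2
      obtain ⟨j, -, hj⟩ := h2
      exact ⟨j, hp.irreducible.associated_of_dvd X_prime.irreducible
        (Ideal.mem_span_singleton.mp hj)⟩
  obtain ⟨j, hj⟩ := key (fun _ => 0)
  obtain ⟨j', hj'⟩ := key (fun _ => 1)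
  have h3 := (hj.symm.trans hj').dvd
  rw [X_dvd_X] at h3
  simp at h3

end TorusStack

end Pool.Agent.StrongChow
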