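import Mathlib

/-!
# Torus quotient stacks with a good moduli space, strong and primarily strong substacks, Chow groups

The first section is about a commutative ring `S` graded by the character lattice `ℤⁿ` of the torus
`T = 𝔾ₘⁿ`, i.e. about the affine `T`-scheme `Spec S`, and its `T`-invariant open subschemes.  The
second section applies this to `𝒳 = [U/T]`, where `T` acts diagonally on the affine space
`𝔸ᵐ = Spec S`, `S = k[x₁,…,x_m]`, and `U ⊆ 𝔸ᵐ` is the union of the principal opens `U_i = D(f_i)` of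
finitely many homogeneous `f_i ≠ 0`.  The overlap condition says that `U_i ∩ U_j` is the inverse
image of a principal open of `X_i = Spec (S_{f_i})₀`; so the affine quotients `X_i` glue along the
opens `X_{ij} = Spec (S_{f_i f_j})₀` to a scheme `X` and `π : 𝒳 → X` is a good moduli space.
-/

open MvPolynomial

noncomputable section

namespace Pool.Agent.StrongChow

universe u

section Graded

variable {k S : Type u} [Field k] [CommRing S] [Algebra k S] {n : ℕ}
  (𝒜 : (Fin n → ℤ) → Submodule k S)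

/-- The ideal is generated by its homogeneous elements, i.e. `V(I) ⊆ Spec S` is `T`-invariant. -/
def IsHomogeneousIdeal (I : Ideal S) : Prop :=
  I = Ideal.span {x | x ∈ I ∧ ∃ δ, x ∈ 𝒜 δ}

/-- The `T`-invariant integral closed subschemes of codimension `c` of the open subscheme
`Spec S ∖ V(B)` of `Spec S`: homogeneous primes of height `c` not containing `B`. -/
structure InvariantSubvariety (B : Ideal S) (c : ℕ) where
  I : Ideal S
  prime : I.IsPrime
  homogeneous : IsHomogeneousIdeal 𝒜 I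
  height : I.height = c
  meets : ¬ B ≤ I

instance (B : Ideal S) (c : ℕ) (Q : InvariantSubvariety 𝒜 B c) : Q.I.IsPrime := Q.prime

/-- For `f` homogeneous of degree `d`: the fractions `g / f ^ e` of degree `0` in the `S`-algebra
`L`.  For `L = S_f` this is the ring `(S_f)₀` of `T`-invariant functions on `D(f)`. -/
def degreeZero (L : Type u) [CommRing L] [Algebra S L] (f : S) (d : Fin n → ℤ) : Set L :=
  {x | ∃ e : ℕ, ∃ g ∈ 𝒜 (e • d), x * algebraMap S L (f ^ e) = algebraMap S L g}

/-- The quotients `Spec (S_f)₀` and `Spec (S_{f'})₀`, glued along `Spec (S_{f f'})₀`, form a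
separated scheme: `(S_{f f'})₀` is generated by `(S_f)₀` and `(S_{f'})₀`, inside the fraction
field. -/
def SeparatedPair (f f' : S) (d d' : Fin n → ℤ) : Prop :=
  degreeZero 𝒜 (FractionRing S) (f * f') (d + d') ⊆
    Subring.closure (degreeZero 𝒜 (FractionRing S) f d ∪ degreeZero 𝒜 (FractionRing S) f' d')

/-- Let `𝒵` be defined by `P` and let `π : [D(f)/T] → Spec (S_f)₀`.  The image `π(𝒵)` is the closed
subscheme defined by the contraction of `P_f` to `(S_f)₀`; the closed substack `π⁻¹(π(𝒵))` is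
defined by the ideal of `S_f` generated by this contraction. -/
def preimageOfImage (f : S) (d : Fin n → ℤ) (P : Ideal S) : Ideal (Localization.Away f) :=
  Ideal.span (degreeZero 𝒜 (Localization.Away f) f d ∩ P.map (algebraMap S (Localization.Away f)))

/-- `𝒵 = π⁻¹(π(𝒵))` over `D(f)`. -/
def StrongAt (f : S) (d : Fin n → ℤ) (P : Ideal S) : Prop :=
  P.map (algebraMap S (Localization.Away f)) = preimageOfImage 𝒜 f d P

/-- `𝒵 = π⁻¹(π(𝒵))_red` over `D(f)`. -/
def TopologicallyStrongAt (f : S) (d : Fin n → ℤ) (P : Ideal S) : Prop :=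
  P.map (algebraMap S (Localization.Away f)) = (preimageOfImage 𝒜 f d P).radical

/-- `π⁻¹(π(𝒵))` has no embedded components over `D(f)`: every associated prime of its coordinate
ring is minimal. -/
def NoEmbeddedAt (f : S) (d : Fin n → ℤ) (P : Ideal S) : Prop :=
  ∀ Q ∈ associatedPrimes (Localization.Away f)
    (Localization.Away f ⧸ preimageOfImage 𝒜 f d P), Q ∈ (preimageOfImage 𝒜 f d P).minimalPrimes

/-- For primes `P` and `Q` of `S`, `Q` of height one more than `P`, and `a ∉ P`: the order of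
vanishing of the function `a` on `V(P)` along `V(Q)`, that is, the length of `S_Q / (P, a)`
(which is `0` if `Q` does not contain `P` and `a`). -/
def vanishingOrder (P Q : Ideal S) [Q.IsPrime] (a : S) : ℕ :=
  (Module.length (Localization.AtPrime Q)
    (Localization.AtPrime Q ⧸
      (P ⊔ Ideal.span {a}).map (algebraMap S (Localization.AtPrime Q)))).toNat

/-- Suppose `T` acts freely on `D = Spec S ∖ V(B)`, so that `D → D/T` is a `T`-torsor.  The integral
closed subschemes of `D/T` are the `T`-invariant integral closed subschemes of `D`, so these are the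
cycles of codimension `c` on `D/T`, with rational coefficients. -/
abbrev Cycles (B : Ideal S) (c : ℕ) : Type u := InvariantSubvariety 𝒜 B c →₀ ℚ

/-- The cycles on `D/T` rationally equivalent to zero: generated by the divisors `div(a/b)` of the
non-zero rational functions on the integral closed subschemes `V(P)` of codimension `c - 1`, that
is, of the `T`-invariant ones: fractions `a/b`, `a` and `b` homogeneous of the same degree and not
in `P`. -/
def rationallyTrivial (B : Ideal S) (c : ℕ) : Submodule ℚ (Cycles 𝒜 B c) :=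
  Submodule.span ℚ {z | ∃ (h : ℕ) (P : InvariantSubvariety 𝒜 B h) (δ : Fin n → ℤ) (a b : S),
    h + 1 = c ∧ a ∈ 𝒜 δ ∧ b ∈ 𝒜 δ ∧ a ∉ P.I ∧ b ∉ P.I ∧
    ∀ Q : InvariantSubvariety 𝒜 B c,
      z Q = (vanishingOrder P.I Q.I a : ℚ) - (vanishingOrder P.I Q.I b : ℚ)}

/-- The rational Chow group `A^c(D/T)_ℚ` of the quotient of `D = Spec S ∖ V(B)` by the free action
of `T`. -/
def QuotientChow (B : Ideal S) (c : ℕ) : Type u := Cycles 𝒜 B c ⧸ rationallyTrivial 𝒜 B c

instance QuotientChow.addCommGroup (B : Ideal S) (c : ℕ) : AddCommGroup (QuotientChow 𝒜 B c) :=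
  Submodule.Quotient.addCommGroup (rationallyTrivial 𝒜 B c)

instance QuotientChow.module (B : Ideal S) (c : ℕ) : Module ℚ (QuotientChow 𝒜 B c) :=
  Submodule.Quotient.module (rationallyTrivial 𝒜 B c)

variable {𝒜} in
/-- The class of an integral closed subscheme of `D/T`. -/
def InvariantSubvariety.cls {B : Ideal S} {c : ℕ} (Q : InvariantSubvariety 𝒜 B c) :
    QuotientChow 𝒜 B c :=
  (rationallyTrivial 𝒜 B c).mkQ (Finsupp.single Q 1)

end Graded

/-- Data of a smooth connected torus quotient stack `𝒳 = [U/𝔾ₘⁿ]` with good moduli space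
`π : 𝒳 → X`, where `U = ⋃ᵢ D(fᵢ) ⊆ 𝔸ᵐ` and `X` is glued from the `Spec (S_{fᵢ})₀`. -/
structure TorusStack (k : Type u) [Field k] where
  /-- the dimension of the affine space -/
  m : ℕ
  /-- the rank of the torus; its character lattice is `Fin n → ℤ` -/
  n : ℕ
  /-- the weights of the coordinates -/
  w : Fin m → Fin n → ℤ
  /-- the number of charts -/
  r : ℕ
  /-- the equations of the charts `U_i = D(f_i)` -/
  f : Fin r → MvPolynomial (Fin m) k
  /-- the degrees of the equations -/
  d : Fin r → Fin n → ℤ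
  homogeneous : ∀ i, f i ∈ weightedHomogeneousSubmodule k w (d i)
  ne_zero : ∀ i, f i ≠ 0
  nonempty : 0 < r
  /-- `U_i ∩ U_j` is saturated in `U_i`: it is the non-vanishing locus in `U_i` of an invariant
  function `g / f_i ^ e ∈ (S_{f_i})₀`. -/
  overlap : ∀ i j, ∃ (e : ℕ) (g : MvPolynomial (Fin m) k),
    g ∈ weightedHomogeneousSubmodule k w (e • d i) ∧
    ∀ Q : Ideal (MvPolynomial (Fin m) k), Q.IsPrime → f i ∉ Q → (g ∉ Q ↔ f j ∉ Q)

namespace TorusStack

variable {k : Type u} [Field k] (𝒳 : TorusStack k)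

/-- The grading of `S = k[x₁,…,x_m]` corresponding to the action of the torus. -/
def grading : (Fin 𝒳.n → ℤ) → Submodule k (MvPolynomial (Fin 𝒳.m) k) :=
  weightedHomogeneousSubmodule k 𝒳.w

/-- The ideal of the complement of `U` in `𝔸ᵐ`. -/
def irrelevant : Ideal (MvPolynomial (Fin 𝒳.m) k) := Ideal.span (Set.range 𝒳.f)

/-- The good moduli space `X` is separated. -/
def IsSeparated : Prop :=
  ∀ i j, SeparatedPair 𝒳.grading (𝒳.f i) (𝒳.f j) (𝒳.d i) (𝒳.d j)

/-- The stabiliser in `T` of the point `Q` of `𝔸ᵐ` is finite.  (It is the diagonalisable group with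
character group `ℤⁿ` modulo the subgroup generated by the weights of the coordinates not vanishing
at `Q`.) -/
def FiniteStabiliser (Q : Ideal (MvPolynomial (Fin 𝒳.m) k)) : Prop :=
  (AddSubgroup.closure (𝒳.w '' {j | X j ∉ Q})).FiniteIndex

/-- `𝒳` is properly stable: some non-empty saturated open substack of `𝒳`, here the
non-vanishing locus in some chart `U_i` of a non-zero invariant function `g / f_i ^ e`, is tame,
here: all its points have finite stabilisers. -/
def IsProperlyStable : Prop :=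
  ∃ (i : Fin 𝒳.r) (e : ℕ) (g : MvPolynomial (Fin 𝒳.m) k), g ∈ 𝒳.grading (e • 𝒳.d i) ∧ g ≠ 0 ∧
    ∀ Q : Ideal (MvPolynomial (Fin 𝒳.m) k), Q.IsPrime → 𝒳.f i ∉ Q → g ∉ Q → 𝒳.FiniteStabiliser Q

/-- The integral closed substacks of codimension `c` of `𝒳 = [U/T]`. -/
abbrev Substack (c : ℕ) : Type u := InvariantSubvariety 𝒳.grading 𝒳.irrelevant c

variable {𝒳} {c : ℕ}

/-- `𝒵` is strong: `𝒵 = π⁻¹(π(𝒵))` as closed substacks. -/
def Strong (Z : 𝒳.Substack c) : Prop :=
  ∀ i, StrongAt 𝒳.grading (𝒳.f i) (𝒳.d i) Z.I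

/-- `𝒵` is topologically strong: `𝒵 = π⁻¹(π(𝒵))_red`. -/
def TopologicallyStrong (Z : 𝒳.Substack c) : Prop :=
  ∀ i, TopologicallyStrongAt 𝒳.grading (𝒳.f i) (𝒳.d i) Z.I

/-- `𝒵` is primarily strong: it is topologically strong and `π⁻¹(π(𝒵))` has no embedded
components. -/
def PrimarilyStrong (Z : 𝒳.Substack c) : Prop :=
  TopologicallyStrong Z ∧ ∀ i, NoEmbeddedAt 𝒳.grading (𝒳.f i) (𝒳.d i) Z.I

/-- All points of `𝒵` have finite stabilisers (so `𝒵` lies in the locus of `𝒳` over which `π` is
a coarse space map, and `π(𝒵)` has the same codimension in `X` as `𝒵` in `𝒳`). -/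
def FiniteStabilisers (Z : 𝒳.Substack c) : Prop :=
  ∀ Q : Ideal (MvPolynomial (Fin 𝒳.m) k), Q.IsPrime → Z.I ≤ Q → ¬ 𝒳.irrelevant ≤ Q →
    𝒳.FiniteStabiliser Q

variable (𝒳) (c)

/-! ## Chow groups

`A^c(𝒳) = A^c_T(U) = A^c((U × V_c)/T)` (Edidin–Graham), where `V_c = (𝔸^{c+1} ∖ 0)ⁿ`, the `j`-th
factor of `T = 𝔾ₘⁿ` acting by scaling on the `j`-th factor of `V_c`: this is an open subset of a
representation of `T` with complement of codimension `c + 1 > c`, on which `T` acts freely. -/

/-- The grading of the coordinate ring `S_c = S[z_{j,b} : j ≤ n, b ≤ c + 1]` of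
`𝔸ᵐ × (𝔸^{c+1})ⁿ`: the coordinate `z_{j,b}` has degree the `j`-th basis vector of `ℤⁿ`. -/
def mixedGrading :
    (Fin 𝒳.n → ℤ) → Submodule k (MvPolynomial ((Fin 𝒳.n × Fin (c + 1)) ⊕ Fin 𝒳.m) k) :=
  weightedHomogeneousSubmodule k (Sum.elim (fun p => Pi.single p.1 1) 𝒳.w)

/-- The inclusion of `S` into `S_c`. -/
def incl : MvPolynomial (Fin 𝒳.m) k →ₐ[k] MvPolynomial ((Fin 𝒳.n × Fin (c + 1)) ⊕ Fin 𝒳.m) k :=
  rename Sum.inr

/-- The ideal of the complement of `U × V_c` in `𝔸ᵐ × (𝔸^{c+1})ⁿ`: the open subscheme `U × V_c` is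
the union of the principal opens defined by the products `f_i z_{1,b_1} ⋯ z_{n,b_n}`. -/
def mixedIdeal : Ideal (MvPolynomial ((Fin 𝒳.n × Fin (c + 1)) ⊕ Fin 𝒳.m) k) :=
  Ideal.span (Set.range fun p : Fin 𝒳.r × (Fin 𝒳.n → Fin (c + 1)) =>
    𝒳.incl c (𝒳.f p.1) * ∏ j, X (Sum.inl (j, p.2 j)))

/-- The rational Chow group `A^c(𝒳)_ℚ = A^c((U × V_c)/T)_ℚ`. -/
def Chow : Type u := QuotientChow (𝒳.mixedGrading c) (𝒳.mixedIdeal c) c

instance Chow.addCommGroup : AddCommGroup (𝒳.Chow c) :=
  QuotientChow.addCommGroup (𝒳.mixedGrading c) (𝒳.mixedIdeal c) c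

instance Chow.module : Module ℚ (𝒳.Chow c) :=
  QuotientChow.module (𝒳.mixedGrading c) (𝒳.mixedIdeal c) c

end TorusStack

end Pool.Agent.StrongChow
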