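import Pool.Agent.StrongChow.Extend

/-!
# Factors of homogeneous polynomials; the degree of a divisor class
-/

open MvPolynomial

noncomputable section

namespace Pool.Agent.StrongChow

universe u

section Factor

variable {k : Type u} [Field k] {σ : Type*} {M : Type*} [AddCommMonoid M] {w : σ → M}

theorem sum_components [DecidableEq M] (a : MvPolynomial σ k) :
    ∑ α ∈ a.support.image (Finsupp.weight w), weightedHomogeneousComponent w α a = a := by
  ext s
  rw [coeff_sum]
  simp only [coeff_weightedHomogeneousComponent]
  rw [Finset.sum_ite_eq]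
  split_ifs with h
  · rfl
  · by_contra h0
    exact h (Finset.mem_image_of_mem _ (mem_support_iff.mpr (Ne.symm h0)))

theorem component_mul_of_unique [DecidableEq M] (a b : MvPolynomial σ k) {α β : M}
    (hα : α ∈ a.support.image (Finsupp.weight w)) (hβ : β ∈ b.support.image (Finsupp.weight w))
    (h : UniqueAdd (a.support.image (Finsupp.weight w)) (b.support.image (Finsupp.weight w)) α β) :
    weightedHomogeneousComponent w (α + β) (a * b) =
      weightedHomogeneousComponent w α a * weightedHomogeneousComponent w β b := by
  conv_lhs => rw [← sum_components (w := w) a, ← sum_components (w := w) b]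
  rw [Finset.sum_mul_sum, map_sum]
  rw [Finset.sum_eq_single α]
  · rw [map_sum, Finset.sum_eq_single β]
    · exact ((weightedHomogeneousComponent_isWeightedHomogeneous α a).mul
        (weightedHomogeneousComponent_isWeightedHomogeneous β b)).weightedHomogeneousComponent_same
    · intro β' hβ' hne
      apply ((weightedHomogeneousComponent_isWeightedHomogeneous α a).mul
        (weightedHomogeneousComponent_isWeightedHomogeneous β' b)).weightedHomogeneousComponent_ne
      intro he
      exact hne (h hα hβ' he.symm).2
    · intro hn
      exact absurd hβ hn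
  · intro α' hα' hne
    rw [map_sum]
    apply Finset.sum_eq_zero
    intro β' hβ'
    apply ((weightedHomogeneousComponent_isWeightedHomogeneous α' a).mul
      (weightedHomogeneousComponent_isWeightedHomogeneous β' b)).weightedHomogeneousComponent_ne
    intro he
    exact hne (h hα' hβ' he.symm).1
  · intro hn
    exact absurd hα hn

theorem component_ne_zero [DecidableEq M] (a : MvPolynomial σ k) {α : M}
    (hα : α ∈ a.support.image (Finsupp.weight w)) :
    weightedHomogeneousComponent w α a ≠ 0 := by
  obtain ⟨s, hs, rfl⟩ := Finset.mem_image.mp hα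
  intro h
  have := congrArg (coeff s) h
  rw [coeff_weightedHomogeneousComponent, if_pos rfl, coeff_zero] at this
  exact mem_support_iff.mp hs this

/-- A factor of a non-zero homogeneous polynomial is homogeneous. -/
theorem homogeneous_of_mul [TwoUniqueSums M] {a b : MvPolynomial σ k} {δ : M}
    (h : IsWeightedHomogeneous w (a * b) δ) (hab : a * b ≠ 0) :
    ∃ α, IsWeightedHomogeneous w a α := by
  classical
  have ha : a ≠ 0 := left_ne_zero_of_mul hab
  have hb : b ≠ 0 := right_ne_zero_of_mul hab
  set A := a.support.image (Finsupp.weight w) with hA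
  set B := b.support.image (Finsupp.weight w) with hB
  have hAne : A.Nonempty := (Finset.nonempty_iff_ne_empty.mpr (by simpa using ha)).image _
  have hBne : B.Nonempty := (Finset.nonempty_iff_ne_empty.mpr (by simpa using hb)).image _
  by_cases hc : 1 < A.card * B.card
  · exfalso
    obtain ⟨p, hp, q, hq, hne, hup, huq⟩ := TwoUniqueSums.uniqueAdd_of_one_lt_card hc
    rw [Finset.mem_product] at hp hq
    have key : ∀ α ∈ A, ∀ β ∈ B, UniqueAdd A B α β → α + β = δ := by
      intro α hα β hβ hu
      by_contra hne
      have h1 := component_mul_of_unique (w := w) a b hα hβ hu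
      rw [h.weightedHomogeneousComponent_ne _ hne] at h1
      exact mul_ne_zero (component_ne_zero a hα) (component_ne_zero b hβ) h1.symm
    have h1 := key _ hp.1 _ hp.2 hup
    have h2 := key _ hq.1 _ hq.2 huq
    have h3 := huq hp.1 hp.2 (h1.trans h2.symm)
    exact hne (Prod.ext h3.1 h3.2)
  · have h1 : A.card = 1 := by
      have ha1 := hAne.card_pos
      have hb1 := hBne.card_pos
      nlinarith
    obtain ⟨α, hα⟩ := Finset.card_eq_one.mp h1
    refine ⟨α, fun s hs => ?_⟩
    have : Finsupp.weight w s ∈ A := Finset.mem_image_of_mem _ (mem_support_iff.mpr hs)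
    rwa [hα, Finset.mem_singleton] at this

theorem degree_of_mul [IsLeftCancelAdd M] {a b : MvPolynomial σ k} {α δ : M}
    (h : IsWeightedHomogeneous w (a * b) δ) (hab : a * b ≠ 0) (ha : IsWeightedHomogeneous w a α) :
    ∃ β, IsWeightedHomogeneous w b β ∧ α + β = δ := by
  classical
  have hb : b ≠ 0 := right_ne_zero_of_mul hab
  have ha0 : a ≠ 0 := left_ne_zero_of_mul hab
  have key : ∀ β ∈ b.support.image (Finsupp.weight w), α + β = δ := by
    intro β hβ
    by_contra hne
    have hA : a.support.image (Finsupp.weight w) = {α} := by
      ext x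
      rw [Finset.mem_singleton, Finset.mem_image]
      constructor
      · rintro ⟨s, hs, rfl⟩
        exact ha (mem_support_iff.mp hs)
      · rintro rfl
        obtain ⟨s, hs⟩ := ne_zero_iff.mp ha0
        exact ⟨s, mem_support_iff.mpr hs, ha hs⟩
    have h1 := component_mul_of_unique (w := w) a b (α := α) (β := β)
      (by rw [hA]; simp) hβ (by
        rw [hA]
        intro x y hx hy hxy
        rw [Finset.mem_singleton] at hx
        subst hx
        exact ⟨rfl, add_left_cancel hxy⟩)
    rw [h.weightedHomogeneousComponent_ne _ hne] at h1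
    exact mul_ne_zero (component_ne_zero a (by rw [hA]; simp)) (component_ne_zero b hβ) h1.symm
  obtain ⟨s, hs⟩ := ne_zero_iff.mp hb
  refine ⟨Finsupp.weight w s, fun t ht => ?_,
    key _ (Finset.mem_image_of_mem _ (mem_support_iff.mpr hs))⟩
  have h1 := key _ (Finset.mem_image_of_mem _ (mem_support_iff.mpr hs))
  have h2 := key _ (Finset.mem_image_of_mem _ (mem_support_iff.mpr ht))
  exact add_left_cancel (h2.trans h1.symm)

/-- If a non-zero principal ideal is homogeneous then so is its generator. -/
theorem homogeneous_of_span {n : ℕ} {σ : Type} {w : σ → Fin n → ℤ} {k : Type u} [Field k]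
    {F : MvPolynomial σ k} (hF : F ≠ 0)
    (h : IsHomogeneousIdeal (weightedHomogeneousSubmodule k w) (Ideal.span {F})) :
    ∃ α, IsWeightedHomogeneous w F α := by
  by_contra hcon
  have h0 : ∀ x ∈ Ideal.span {F}, ∀ δ, IsWeightedHomogeneous w x δ → x = 0 := by
    intro x hx δ hδ
    by_contra hx0
    obtain ⟨q, rfl⟩ := Ideal.mem_span_singleton.mp hx
    exact hcon (homogeneous_of_mul hδ hx0)
  have h1 : Ideal.span {F} ≤ (⊥ : Ideal (MvPolynomial σ k)) := by
    rw [h, Ideal.span_le]
    rintro x ⟨hx, δ, hδ⟩
    exact h0 x hx δ hδ
  exact hF (h1 (Ideal.mem_span_singleton_self F))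

end Factor

end Pool.Agent.StrongChow
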