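import Pool.Agent.StrongChow.General

/-!
# A separated toric example: coordinates `x₁,x₂,x₃,y₁,y₂,y₃,t` (numbered `0,…,6`), torus of rank `4`
-/

open MvPolynomial

noncomputable section

namespace Pool.Agent.StrongChow

universe u

namespace Example

/-- The weights of the coordinates. -/
def wts : Fin 7 → Fin 4 → ℤ :=
  ![![0, 2, 1, -2], ![1, 0, 2, -2], ![2, 1, 0, -2], ![1, 0, 0, 0], ![0, 1, 0, 0], ![0, 0, 1, 0],
    ![0, 0, 0, 1]]

/-- The exponents of the equations of the charts: `x₃y₃t`, `x₁y₁t`, `x₂y₂t`, `x₁x₂x₃y₁y₂y₃`. -/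
def fexp : Fin 4 → Fin 7 → ℕ :=
  ![![0, 0, 1, 0, 0, 1, 1], ![1, 0, 0, 1, 0, 0, 1], ![0, 1, 0, 0, 1, 0, 1],
    ![1, 1, 1, 1, 1, 1, 0]]

def ovE : Fin 4 → Fin 4 → ℕ := ![![1, 2, 4, 7], ![4, 1, 2, 7], ![2, 4, 1, 7], ![7, 7, 7, 1]]

def ovG : Fin 4 → Fin 4 → Fin 7 → ℕ :=
  ![![![0, 0, 1, 0, 0, 1, 1], ![1, 0, 0, 4, 0, 1, 0], ![0, 2, 3, 0, 1, 0, 6],
      ![1, 3, 2, 7, 3, 0, 5]],
    ![![3, 0, 2, 0, 0, 1, 6], ![1, 0, 0, 1, 0, 0, 1], ![0, 1, 0, 1, 4, 0, 0],
      ![2, 1, 3, 0, 7, 3, 5]],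
    ![![0, 0, 1, 0, 1, 4, 0], ![2, 3, 0, 1, 0, 0, 6], ![0, 1, 0, 0, 1, 0, 1],
      ![3, 2, 1, 3, 0, 7, 5]],
    ![![6, 4, 12, 0, 4, 14, 2], ![12, 6, 4, 14, 0, 4, 2], ![4, 12, 6, 4, 14, 0, 2],
      ![1, 1, 1, 1, 1, 1, 0]]]

/-- The degree of a monomial. -/
def wt (e : Fin 7 → ℕ) : Fin 4 → ℤ := ∑ l, e l • wts l

variable (k : Type u) [Field k]

/-- The monomial with given exponents. -/
def mono (e : Fin 7 → ℕ) : MvPolynomial (Fin 7) k := ∏ l, X l ^ e l

theorem mono_homog (e : Fin 7 → ℕ) : IsWeightedHomogeneous wts (mono k e) (wt e) := by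
  unfold mono wt
  exact IsWeightedHomogeneous.prod _ _ _ fun l _ => (isWeightedHomogeneous_X k wts l).pow (e l)

theorem mono_ne_zero (e : Fin 7 → ℕ) : mono k e ≠ 0 :=
  Finset.prod_ne_zero_iff.mpr fun l _ => pow_ne_zero _ (X_ne_zero l)

theorem mono_add (e e' : Fin 7 → ℕ) : mono k (e + e') = mono k e * mono k e' := by
  unfold mono
  rw [← Finset.prod_mul_distrib]
  exact Finset.prod_congr rfl fun l _ => pow_add _ _ _

theorem mono_nsmul (n : ℕ) (e : Fin 7 → ℕ) : mono k (n • e) = mono k e ^ n := by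
  unfold mono
  rw [← Finset.prod_pow]
  refine Finset.prod_congr rfl fun l _ => ?_
  rw [← pow_mul, Pi.smul_apply, smul_eq_mul, mul_comm]

theorem mono_eq_monomial (e : Fin 7 → ℕ) :
    mono k e = monomial (Finsupp.equivFunOnFinite.symm e) 1 := by
  rw [monomial_eq, C_1, one_mul, Finsupp.prod_fintype _ _ (by simp)]
  rfl

theorem mono_notMem_iff {Q : Ideal (MvPolynomial (Fin 7) k)} (hQ : Q.IsPrime) (e : Fin 7 → ℕ) :
    mono k e ∉ Q ↔ ∀ l, e l ≠ 0 → X l ∉ Q := by
  unfold mono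
  constructor
  · intro h l hl hX
    apply h
    rw [hQ.prod_mem_iff]
    exact ⟨l, Finset.mem_univ _, Ideal.pow_mem_of_mem _ hX _ (Nat.pos_of_ne_zero hl)⟩
  · intro h hmem
    rw [hQ.prod_mem_iff] at hmem
    obtain ⟨l, -, hl⟩ := hmem
    by_cases he : e l = 0
    · rw [he, pow_zero] at hl
      exact hQ.ne_top ((Ideal.eq_top_iff_one _).mpr hl)
    · exact h l he (hQ.mem_of_pow_mem _ hl)

theorem ov_support : ∀ i j : Fin 4, ∀ l : Fin 7,
    (fexp i l ≠ 0 ∨ ovG i j l ≠ 0) ↔ (fexp i l ≠ 0 ∨ fexp j l ≠ 0) := by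
  decide

theorem ov_weight : ∀ i j : Fin 4, wt (ovG i j) = ovE i j • wt (fexp i) := by
  unfold wt
  decide

theorem ov_mul : ∀ i j : Fin 4, ovG i j + ovG j i = ovE i j • fexp i + ovE j i • fexp j := by
  decide

/-- The stack of the example. -/
abbrev stack : TorusStack k where
  m := 7
  n := 4
  w := wts
  r := 4
  f := fun i => mono k (fexp i)
  d := fun i => wt (fexp i)
  homogeneous := fun i => mono_homog k (fexp i)
  ne_zero := fun i => mono_ne_zero k (fexp i)
  nonempty := by norm_num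
  overlap := fun i j => by
    refine ⟨ovE i j, mono k (ovG i j), ?_, ?_⟩
    · rw [← ov_weight]
      exact mono_homog k (ovG i j)
    · intro Q hQ hf
      rw [mono_notMem_iff k hQ] at hf ⊢
      rw [mono_notMem_iff k hQ]
      constructor
      · intro h l hl
        rcases (ov_support i j l).mpr (Or.inr hl) with h1 | h1
        · exact hf l h1
        · exact h l h1
      · intro h l hl
        rcases (ov_support i j l).mp (Or.inr hl) with h1 | h1
        · exact hf l h1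
        · exact h l h1

theorem separated : (stack k).IsSeparated := by
  apply TorusStack.isSeparated_of
  intro i j
  refine ⟨ovE i j, ovE j i, 1, mono k (ovG i j), mono k (ovG j i), ?_, ?_, ?_, ?_⟩
  · change IsWeightedHomogeneous wts _ (ovE i j • wt (fexp i))
    rw [← ov_weight]
    exact mono_homog k _
  · change IsWeightedHomogeneous wts _ (ovE j i • wt (fexp j))
    rw [← ov_weight]
    exact mono_homog k _
  · change _ = mono k (fexp i) ^ _ * mono k (fexp j) ^ _
    rw [← mono_add, ov_mul, mono_add, mono_nsmul, mono_nsmul]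
  · change mono k (fexp j) ∣ (mono k (fexp i) * mono k (ovG i j)) ^ 1
    rw [pow_one, ← mono_add]
    have h : ∀ i j : Fin 4, ∀ l, fexp j l ≤ (fexp i + ovG i j) l := by decide
    refine ⟨mono k (fexp i + ovG i j - fexp j), ?_⟩
    rw [← mono_add]
    congr 1
    funext l
    exact (Nat.add_sub_cancel' (h i j l)).symm

theorem properlyStable : (stack k).IsProperlyStable := by
  refine ⟨(3 : Fin 4), 7, mono k (ovG 3 0), ?_, mono_ne_zero k _, ?_⟩
  · change mono k (ovG 3 0) ∈ weightedHomogeneousSubmodule k wts (7 • wt (fexp 3))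
    have : wt (ovG 3 0) = 7 • wt (fexp 3) := ov_weight 3 0
    rw [← this]
    exact mono_homog k _
  · intro Q hQ hf hg
    change mono k (fexp 3) ∉ Q at hf
    rw [mono_notMem_iff k hQ] at hf hg
    have hX : ∀ l : Fin 7, X l ∉ Q := by
      intro l
      have : ∀ l : Fin 7, fexp 3 l ≠ 0 ∨ ovG 3 0 l ≠ 0 := by decide
      rcases this l with h | h
      · exact hf l h
      · exact hg l h
    have htop : AddSubgroup.closure (wts '' {j | X j ∉ Q}) = ⊤ := by
      rw [eq_top_iff]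
      intro v _
      have hw : ∀ l : Fin 7, wts l ∈ AddSubgroup.closure (wts '' {j | X j ∉ Q}) := fun l =>
        AddSubgroup.subset_closure ⟨l, hX l, rfl⟩
      have hv : v = v 0 • wts 3 + v 1 • wts 4 + v 2 • wts 5 + v 3 • wts 6 := by
        funext i
        fin_cases i <;> simp [wts]
      rw [hv]
      exact add_mem (add_mem (add_mem (zsmul_mem (hw 3) _) (zsmul_mem (hw 4) _))
        (zsmul_mem (hw 5) _)) (zsmul_mem (hw 6) _)
    change (AddSubgroup.closure (wts '' {j | X j ∉ Q})).FiniteIndex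
    rw [htop]
    infer_instance

end Example

end Pool.Agent.StrongChow
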