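import Pool.Agent.StrongChow.Defs

/-!
# The class of an integral closed substack in the Chow group
-/

open MvPolynomial

noncomputable section

namespace Pool.Agent.StrongChow

universe u

/-- The extension of a prime of `R` to `R[z]` is prime. -/
theorem isPrime_map_C {R : Type u} [CommRing R] {τ : Type*} (P : Ideal R) [P.IsPrime] :
    (P.map (C : R →+* MvPolynomial τ R)).IsPrime := by
  rw [← Ideal.Quotient.isDomain_iff_prime]
  exact (MvPolynomial.quotientEquivQuotientMvPolynomial (σ := τ) P).symm.toMulEquiv.isDomain _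

theorem comap_map_C {R : Type u} [CommRing R] {τ : Type*} (P : Ideal R) :
    (P.map (C : R →+* MvPolynomial τ R)).comap C = P := by
  ext x
  rw [Ideal.mem_comap, MvPolynomial.mem_map_C_iff]
  constructor
  · intro h
    simpa using h 0
  · intro h m
    classical
    rw [coeff_C]
    split_ifs
    · exact h
    · exact P.zero_mem

theorem height_map_C {R : Type u} [CommRing R] [IsNoetherianRing R] {τ : Type*} [Finite τ]
    (P : Ideal R) [P.IsPrime] :
    (P.map (C : R →+* MvPolynomial τ R)).height = P.height := by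
  have : (P.map (C : R →+* MvPolynomial τ R)).IsPrime := isPrime_map_C P
  have : (P.map (C : R →+* MvPolynomial τ R)).LiesOver P := ⟨(comap_map_C P).symm⟩
  rw [Ideal.height_eq_height_add_of_liesOver_of_hasGoingDown P]
  have h1 : Ideal.map (Ideal.Quotient.mk (P.map (algebraMap R (MvPolynomial τ R))))
      (P.map (C : R →+* MvPolynomial τ R)) = ⊥ := by
    rw [MvPolynomial.algebraMap_eq]
    exact Ideal.map_quotient_self _
  rw [h1]
  have hdom : IsDomain (MvPolynomial τ R ⧸ P.map (algebraMap R (MvPolynomial τ R))) := by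
    rw [MvPolynomial.algebraMap_eq, Ideal.Quotient.isDomain_iff_prime]
    exact isPrime_map_C P
  have h2 : (⊥ : Ideal (MvPolynomial τ R ⧸ P.map (algebraMap R (MvPolynomial τ R)))).height = 0 := by
    exact Ideal.height_bot
  rw [h2, add_zero]

variable {k : Type u} [Field k] {τ σ : Type}

theorem map_rename_inr_eq (P : Ideal (MvPolynomial σ k)) :
    P.map (rename Sum.inr : MvPolynomial σ k →ₐ[k] MvPolynomial (τ ⊕ σ) k) =
      (P.map (C : MvPolynomial σ k →+* MvPolynomial τ (MvPolynomial σ k))).comap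
        (sumAlgEquiv k τ σ) := by
  have h := sumAlgEquiv_comp_rename_inr (R := k) (S₁ := τ) (S₂ := σ)
  have h2 : ∀ a : MvPolynomial σ k, sumAlgEquiv k τ σ (rename Sum.inr a) = C a := fun a =>
    DFunLike.congr_fun h a
  have h3 : P.map (C : MvPolynomial σ k →+* MvPolynomial τ (MvPolynomial σ k)) =
      (P.map (rename Sum.inr : MvPolynomial σ k →ₐ[k] MvPolynomial (τ ⊕ σ) k)).map
        (sumAlgEquiv k τ σ) := by
    apply le_antisymm
    · rw [Ideal.map_le_iff_le_comap]
      intro a ha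
      rw [Ideal.mem_comap, ← h2]
      exact Ideal.mem_map_of_mem _ (Ideal.mem_map_of_mem _ ha)
    · rw [Ideal.map_le_iff_le_comap, Ideal.map_le_iff_le_comap]
      intro a ha
      rw [Ideal.mem_comap, Ideal.mem_comap, h2]
      exact Ideal.mem_map_of_mem _ ha
  rw [h3]
  exact (Ideal.comap_map_of_bijective _ (sumAlgEquiv k τ σ).bijective).symm

theorem isPrime_map_rename (P : Ideal (MvPolynomial σ k)) [P.IsPrime] :
    (P.map (rename Sum.inr : MvPolynomial σ k →ₐ[k] MvPolynomial (τ ⊕ σ) k)).IsPrime := by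
  rw [map_rename_inr_eq]
  have := isPrime_map_C (τ := τ) P
  exact Ideal.comap_isPrime _ _

theorem height_map_rename [Finite τ] [Finite σ] (P : Ideal (MvPolynomial σ k)) [P.IsPrime] :
    (P.map (rename Sum.inr : MvPolynomial σ k →ₐ[k] MvPolynomial (τ ⊕ σ) k)).height =
      P.height := by
  rw [map_rename_inr_eq, ← height_map_C (τ := τ) P]
  exact RingEquiv.height_comap (sumAlgEquiv k τ σ).toRingEquiv _

theorem mem_map_rename_iff (P : Ideal (MvPolynomial σ k)) (a : MvPolynomial σ k) :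
    rename Sum.inr a ∈ P.map (rename Sum.inr : MvPolynomial σ k →ₐ[k] MvPolynomial (τ ⊕ σ) k) ↔
      a ∈ P := by
  constructor
  · intro h
    rw [map_rename_inr_eq, Ideal.mem_comap] at h
    have h := h
    have h2 : ∀ a : MvPolynomial σ k, sumAlgEquiv k τ σ (rename Sum.inr a) = C a := fun a =>
      DFunLike.congr_fun (sumAlgEquiv_comp_rename_inr (R := k) (S₁ := τ) (S₂ := σ)) a
    rw [h2] at h
    have := Ideal.mem_comap.mpr h
    rwa [comap_map_C] at this
  · intro h
    exact Ideal.mem_map_of_mem _ h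

theorem X_inl_notMem_map_rename (P : Ideal (MvPolynomial σ k)) (hP : P ≠ ⊤) (j : τ) :
    (X (Sum.inl j) : MvPolynomial (τ ⊕ σ) k) ∉
      P.map (rename Sum.inr : MvPolynomial σ k →ₐ[k] MvPolynomial (τ ⊕ σ) k) := by
  intro h
  rw [map_rename_inr_eq, Ideal.mem_comap, sumAlgEquiv_X_inl, MvPolynomial.mem_map_C_iff] at h
  have := h (Finsupp.single j 1)
  classical
  rw [coeff_X] at this
  simp only [if_true] at this
  exact hP ((Ideal.eq_top_iff_one _).mpr this)

theorem isWeightedHomogeneous_rename {M : Type*} [AddCommMonoid M] {σ' : Type} (g : σ → σ')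
    (w : σ' → M) {a : MvPolynomial σ k} {δ : M} (h : IsWeightedHomogeneous (w ∘ g) a δ) :
    IsWeightedHomogeneous w (rename g a) δ := by
  intro s hs
  obtain ⟨t, rfl, ht⟩ := coeff_rename_ne_zero g a s hs
  rw [← h ht]
  simp only [Finsupp.weight_apply]
  rw [Finsupp.sum_mapDomain_index (by simp) (by intros; simp [add_smul])]
  rfl

theorem IsHomogeneousIdeal.map {S S' : Type u} [CommRing S] [Algebra k S] [CommRing S']
    [Algebra k S'] {n : ℕ} {𝒜 : (Fin n → ℤ) → Submodule k S} {ℬ : (Fin n → ℤ) → Submodule k S'}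
    (φ : S →ₐ[k] S') (hφ : ∀ δ, ∀ x ∈ 𝒜 δ, φ x ∈ ℬ δ) {P : Ideal S}
    (hP : IsHomogeneousIdeal 𝒜 P) : IsHomogeneousIdeal ℬ (P.map φ) := by
  apply le_antisymm
  · conv_lhs => rw [hP]
    rw [Ideal.map_span, Ideal.span_le]
    rintro _ ⟨x, ⟨hx, δ, hδ⟩, rfl⟩
    exact Ideal.subset_span ⟨Ideal.mem_map_of_mem _ hx, δ, hφ δ x hδ⟩
  · rw [Ideal.span_le]
    rintro x ⟨hx, -⟩
    exact hx

namespace TorusStack

variable (𝒳 : TorusStack k) {c : ℕ}

theorem incl_mem (δ : Fin 𝒳.n → ℤ) (x : MvPolynomial (Fin 𝒳.m) k) (hx : x ∈ 𝒳.grading δ) :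
    𝒳.incl c x ∈ 𝒳.mixedGrading c δ :=
  isWeightedHomogeneous_rename Sum.inr _ hx

theorem mixed_meets {P : Ideal (MvPolynomial (Fin 𝒳.m) k)} (hP : P.IsPrime)
    (h : ¬ 𝒳.irrelevant ≤ P) : ¬ 𝒳.mixedIdeal c ≤ P.map (𝒳.incl c) := by
  intro hle
  have hPp : (P.map (𝒳.incl c)).IsPrime := isPrime_map_rename P
  apply h
  unfold irrelevant
  rw [Ideal.span_le]
  rintro _ ⟨i, rfl⟩
  have h1 := hle (Ideal.subset_span ⟨(i, fun _ => 0), rfl⟩)
  rcases hPp.mem_or_mem h1 with h2 | h2
  · exact (mem_map_rename_iff P _).mp h2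
  · rw [hPp.prod_mem_iff] at h2
    obtain ⟨j, -, hj⟩ := h2
    exact absurd hj (X_inl_notMem_map_rename P hP.ne_top (j, 0))

/-- The integral closed subscheme `(Z × V_c)/T` of the mixed space `(U × V_c)/T`. -/
def mixed (Z : 𝒳.Substack c) : InvariantSubvariety (𝒳.mixedGrading c) (𝒳.mixedIdeal c) c where
  I := Z.I.map (𝒳.incl c)
  prime := isPrime_map_rename Z.I
  homogeneous := Z.homogeneous.map (𝒳.incl c) 𝒳.incl_mem
  height := (height_map_rename Z.I).trans Z.height
  meets := 𝒳.mixed_meets Z.prime Z.meets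

/-- The class of an integral closed substack of codimension `c` in the rational Chow group
`A^c(𝒳)_ℚ`. -/
def cls (Z : 𝒳.Substack c) : 𝒳.Chow c := (𝒳.mixed Z).cls

/-- `A^c_st(𝒳/X)_ℚ`: the span of the classes of the strong integral closed substacks. -/
def chowStrong (c : ℕ) : Submodule ℚ (𝒳.Chow c) :=
  Submodule.span ℚ {x | ∃ Z : 𝒳.Substack c, Strong Z ∧ 𝒳.cls Z = x}

end TorusStack

end Pool.Agent.StrongChow
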