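import Pool.Agent.StrongChow.Example

/-!
# The divisor `{t = 0}` and the absence of strong divisors
-/

open MvPolynomial

noncomputable section

namespace Pool.Agent.StrongChow

universe u

namespace Example

variable (k : Type u) [Field k]

theorem weight_eq (s : Fin 7 →₀ ℕ) : Finsupp.weight wts s = wt s := by
  rw [Finsupp.weight_apply, Finsupp.sum_fintype _ _ (by simp)]
  rfl

theorem wt_zero (s : Fin 7 → ℕ) : wt s 0 = s 1 + 2 * s 2 + s 3 := by
  simp [wt, wts, Fin.sum_univ_succ]
  ring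

theorem wt_one (s : Fin 7 → ℕ) : wt s 1 = 2 * s 0 + s 2 + s 4 := by
  simp [wt, wts, Fin.sum_univ_succ]
  ring

theorem wt_two (s : Fin 7 → ℕ) : wt s 2 = s 0 + 2 * s 1 + s 5 := by
  simp [wt, wts, Fin.sum_univ_succ]
  ring

theorem wt_three (s : Fin 7 → ℕ) :
    wt s 3 = s 6 - 2 * (s 0 + s 1 + s 2) := by
  simp [wt, wts, Fin.sum_univ_succ]
  ring

theorem X6_notDvd_f (n : ℕ) : ¬ (X 6 : MvPolynomial (Fin 7) k) ∣ mono k (fexp 3) ^ n := by
  intro h
  have h1 := X_prime.dvd_of_dvd_pow h
  have hp : (Ideal.span {(X 6 : MvPolynomial (Fin 7) k)}).IsPrime :=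
    (Ideal.span_singleton_prime X_prime.ne_zero).mpr X_prime
  refine (mono_notMem_iff k hp (fexp 3)).mpr ?_ (Ideal.mem_span_singleton.mpr h1)
  intro l hl h
  rw [Ideal.mem_span_singleton, X_dvd_X] at h
  subst h
  exact hl rfl

/-- The divisor `{t = 0}`. -/
def Zt : (stack k).Substack 1 :=
  divisorOf (w := wts) X_prime (isWeightedHomogeneous_X k wts 6) (by
    intro h
    have h1 : mono k (fexp 3) ∈ Ideal.span {X 6} := h (Ideal.subset_span ⟨(3 : Fin 4), rfl⟩)
    have h2 := X6_notDvd_f k 1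
    rw [pow_one] at h2
    exact h2 (Ideal.mem_span_singleton.mp h1))

/-- No prime element divides all `f_i`. -/
theorem meets_all (p : MvPolynomial ((Fin 4 × Fin (1 + 1)) ⊕ Fin 7) k) (hp : Prime p) :
    ∃ i, ¬ p ∣ (stack k).incl 1 ((stack k).f i) := by
  by_contra hcon
  push Not at hcon
  have key : ∀ i : Fin 4, ∃ l : Fin 7, fexp i l ≠ 0 ∧ Associated p (X (Sum.inr l)) := by
    intro i
    have h := hcon i
    change p ∣ rename Sum.inr (mono k (fexp i)) at h
    unfold mono at h
    rw [map_prod] at h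
    obtain ⟨l, -, hl⟩ := hp.exists_mem_finset_dvd h
    rw [map_pow, rename_X] at hl
    by_cases he : fexp i l = 0
    · rw [he, pow_zero] at hl
      exact absurd (isUnit_of_dvd_one hl) hp.not_isUnit
    · exact ⟨l, he, hp.irreducible.associated_of_dvd X_prime.irreducible (hp.dvd_of_dvd_pow hl)⟩
  obtain ⟨l0, h0, ha0⟩ := key 0
  obtain ⟨l1, h1, ha1⟩ := key 1
  obtain ⟨l3, h3, ha3⟩ := key 3
  have e1 : l0 = l1 := by
    have h := (ha0.symm.trans ha1).dvd
    rw [X_dvd_X] at h
    exact Sum.inr_injective h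
  have e3 : l0 = l3 := by
    have h := (ha0.symm.trans ha3).dvd
    rw [X_dvd_X] at h
    exact Sum.inr_injective h
  subst e1
  subst e3
  have h : ∀ l : Fin 7, fexp 0 l ≠ 0 → fexp 1 l ≠ 0 → fexp 3 l ≠ 0 → False := by decide
  exact h l0 h0 h1 h3

theorem pow_notMem (i : Fin 4) (n : ℕ) :
    mono k (fexp i) ^ n ∉ Ideal.span (X '' {l : Fin 7 | fexp i l = 0} : Set (MvPolynomial (Fin 7) k)) := by
  rw [← mono_nsmul, mono_eq_monomial, mem_ideal_span_X_image]
  push Not
  refine ⟨Finsupp.equivFunOnFinite.symm (n • fexp i), ?_, ?_⟩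
  · rw [mem_support_iff, coeff_monomial, if_pos rfl]
    exact one_ne_zero
  · intro l hl
    change n • fexp i l = 0
    rw [Set.mem_ofPred_eq] at hl
    rw [hl, smul_zero]

/-- A strong divisor has degree a multiple of the degree of `t`. -/
theorem degree_eq (W : (stack k).Substack 1) {F : MvPolynomial (Fin 7) k} {δ : Fin 4 → ℤ}
    (hF : Prime F) (hW : W.I = Ideal.span {F}) (hδ : IsWeightedHomogeneous wts F δ)
    (hst : TorusStack.Strong W) : δ 0 = 0 ∧ δ 1 = 0 ∧ δ 2 = 0 := by
  obtain ⟨e, s, hs, he⟩ := TorusStack.degree_of_strong W hF hW hδ (0 : Fin 4) (hst _) {l | fexp 0 l = 0}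
    (pow_notMem k 0)
  obtain ⟨e', s', hs', he'⟩ := TorusStack.degree_of_strong W hF hW hδ (1 : Fin 4) (hst _)
    {l | fexp 1 l = 0} (pow_notMem k 1)
  obtain ⟨e'', s'', hs'', he''⟩ := TorusStack.degree_of_strong W hF hW hδ (2 : Fin 4) (hst _)
    {l | fexp 2 l = 0} (pow_notMem k 2)
  change δ + Finsupp.weight wts s = e • wt (fexp 0) at he
  change δ + Finsupp.weight wts s' = e' • wt (fexp 1) at he'
  change δ + Finsupp.weight wts s'' = e'' • wt (fexp 2) at he''
  rw [weight_eq] at he he' he''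
  have a0 := congrFun he 0
  have a1 := congrFun he 1
  have b1 := congrFun he' 1
  have b2 := congrFun he' 2
  have c0 := congrFun he'' 0
  have c2 := congrFun he'' 2
  have s0 : s 0 = 0 := hs 0 rfl
  have s1 : s 1 = 0 := hs 1 rfl
  have s3 : s 3 = 0 := hs 3 rfl
  have s4 : s 4 = 0 := hs 4 rfl
  have s1' : s' 1 = 0 := hs' 1 rfl
  have s2' : s' 2 = 0 := hs' 2 rfl
  have s4' : s' 4 = 0 := hs' 4 rfl
  have s5' : s' 5 = 0 := hs' 5 rfl
  have s0'' : s'' 0 = 0 := hs'' 0 rfl
  have s2'' : s'' 2 = 0 := hs'' 2 rfl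
  have s3'' : s'' 3 = 0 := hs'' 3 rfl
  have s5'' : s'' 5 = 0 := hs'' 5 rfl
  have f00 : wt (fexp 0) 0 = 2 := by decide
  have f01 : wt (fexp 0) 1 = 1 := by decide
  have f11 : wt (fexp 1) 1 = 2 := by decide
  have f12 : wt (fexp 1) 2 = 1 := by decide
  have f20 : wt (fexp 2) 0 = 1 := by decide
  have f22 : wt (fexp 2) 2 = 2 := by decide
  simp only [Pi.add_apply, Pi.smul_apply, wt_zero, wt_one, wt_two, nsmul_eq_mul, f00, f01, f11,
    f12, f20, f22, s0, s1, s3, s4, s1', s2', s4', s5', s0'', s2'', s3'', s5''] at a0 a1 b1 b2 c0 c2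
  push_cast at a0 a1 b1 b2 c0 c2
  refine ⟨by linarith, by linarith, by linarith⟩

theorem eq_span_t (W : (stack k).Substack 1) (hst : TorusStack.Strong W) : W.I = Ideal.span {X 6} := by
  obtain ⟨F, δ, hF, hW, hδ⟩ := exists_generator (w := wts) W
  obtain ⟨h0, h1, h2⟩ := degree_eq k W hF hW hδ hst
  have hsupp : ∀ s ∈ F.support, s 0 = 0 ∧ s 1 = 0 ∧ s 2 = 0 ∧ s 3 = 0 ∧ s 4 = 0 ∧ s 5 = 0 ∧
      (s 6 : ℤ) = δ 3 := by
    intro s hs
    have h := hδ (mem_support_iff.mp hs)
    change Finsupp.weight wts s = δ at h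
    rw [weight_eq] at h
    have a0 := congrFun h 0
    have a1 := congrFun h 1
    have a2 := congrFun h 2
    have a3 := congrFun h 3
    rw [wt_zero, h0] at a0
    rw [wt_one, h1] at a1
    rw [wt_two, h2] at a2
    rw [wt_three] at a3
    refine ⟨by omega, by omega, by omega, by omega, by omega, by omega, by omega⟩
  by_cases hn : δ 3 = 0
  · exfalso
    have hC : F = C (coeff 0 F) := by
      ext s
      rw [coeff_C]
      split_ifs with hs
      · rw [← hs]
      · by_contra hne
        obtain ⟨b0, b1, b2, b3, b4, b5, b6⟩ := hsupp s (mem_support_iff.mpr hne)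
        apply hs
        ext l
        fin_cases l
        · exact b0.symm
        · exact b1.symm
        · exact b2.symm
        · exact b3.symm
        · exact b4.symm
        · exact b5.symm
        · change 0 = s 6
          omega
    have hc0 : coeff 0 F ≠ 0 := fun h => hF.ne_zero (by rw [hC, h, C_0])
    apply hF.not_isUnit
    rw [hC]
    exact (IsUnit.mk0 _ hc0).map C
  · rw [hW]
    have hdvd : X 6 ∣ F := by
      have : F ∈ Ideal.span (X '' {(6 : Fin 7)} : Set (MvPolynomial (Fin 7) k)) := by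
        rw [mem_ideal_span_X_image]
        intro s hs
        obtain ⟨-, -, -, -, -, -, b6⟩ := hsupp s hs
        refine ⟨6, rfl, fun h => hn ?_⟩
        rw [← b6, h]
        rfl
      rw [Set.image_singleton] at this
      exact Ideal.mem_span_singleton.mp this
    exact Ideal.span_singleton_eq_span_singleton.mpr
      (X_prime.irreducible.associated_of_dvd hF.irreducible hdvd).symm

/-- The structure map to the chart `U_3 = {x₁x₂x₃y₁y₂y₃ ≠ 0}`. -/
abbrev loc : MvPolynomial (Fin 7) k →+* Localization.Away (mono k (fexp 3)) :=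
  algebraMap _ _

theorem loc_injective : Function.Injective (loc k) :=
  IsLocalization.injective _
    (Submonoid.powers_le.mpr (mem_nonZeroDivisors_of_ne_zero (mono_ne_zero k (fexp 3))))

theorem isUnit_loc_pow (n : ℕ) : IsUnit (loc k (mono k (fexp 3) ^ n)) :=
  IsLocalization.map_units (Localization.Away (mono k (fexp 3)))
    (⟨_, n, rfl⟩ : Submonoid.powers (mono k (fexp 3)))

theorem isUnit_loc_mono (e : Fin 7 → ℕ) (n : ℕ) (h : ∀ l, e l ≤ (n • fexp 3) l) :
    IsUnit (loc k (mono k e)) := by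
  apply isUnit_of_dvd_unit _ (isUnit_loc_pow k n)
  apply map_dvd
  rw [← mono_nsmul]
  refine ⟨mono k (n • fexp 3 - e), ?_⟩
  rw [← mono_add]
  congr 1
  funext l
  exact (Nat.add_sub_cancel' (h l)).symm

/-- The ideal of `π⁻¹(π({t = 0}))` on the chart `U_3` is `(t²)`. -/
theorem pre_three : preimageOfImage (weightedHomogeneousSubmodule k wts) (mono k (fexp 3))
    (wt (fexp 3)) (Ideal.span {X 6}) = Ideal.span {loc k (X 6) ^ 2} := by
  have hideal : (Ideal.span {X 6}).map (loc k) = Ideal.span {loc k (X 6)} := by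
    rw [Ideal.map_span, Set.image_singleton]
  apply le_antisymm
  · unfold preimageOfImage
    rw [Ideal.span_le]
    rintro x ⟨⟨e, g, hg, hx⟩, hxI⟩
    change x * loc k (mono k (fexp 3) ^ e) = loc k g at hx
    change IsWeightedHomogeneous wts g (e • wt (fexp 3)) at hg
    have h1 : loc k g ∈ (Ideal.span {X 6}).map (loc k) := by
      rw [← hx]
      exact Ideal.mul_mem_right _ _ hxI
    obtain ⟨⟨⟨a, ha⟩, ⟨b, n, rfl⟩⟩, hab⟩ :=
      (IsLocalization.mem_map_algebraMap_iff (Submonoid.powers (mono k (fexp 3)))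
        (Localization.Away (mono k (fexp 3)))).mp h1
    change loc k g * loc k (mono k (fexp 3) ^ n) = loc k a at hab
    rw [← map_mul] at hab
    have hab' := loc_injective k hab
    rw [Ideal.mem_span_singleton, ← hab'] at ha
    have hg6 : X 6 ∣ g := (X_prime.dvd_or_dvd ha).resolve_right (X6_notDvd_f k n)
    obtain ⟨q, rfl⟩ := hg6
    have hq6 : X 6 ∣ q := by
      by_cases hq0 : q = 0
      · rw [hq0]; exact dvd_zero _
      have : q ∈ Ideal.span (X '' {(6 : Fin 7)} : Set (MvPolynomial (Fin 7) k)) := by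
        rw [mem_ideal_span_X_image]
        intro s hs
        obtain ⟨β, hβ, hβ'⟩ := degree_of_mul hg (mul_ne_zero (X_ne_zero 6) hq0)
          (isWeightedHomogeneous_X k wts 6)
        have h2 := hβ (mem_support_iff.mp hs)
        rw [weight_eq] at h2
        rw [← h2] at hβ'
        have h3 := congrFun hβ' 3
        have f33 : wt (fexp 3) 3 = -6 := by decide
        have w63 : wts 6 3 = 1 := rfl
        rw [Pi.add_apply, Pi.smul_apply, wt_three, f33, w63, nsmul_eq_mul] at h3
        refine ⟨6, rfl, fun h => ?_⟩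
        rw [h] at h3
        push_cast at h3
        omega
      rw [Set.image_singleton] at this
      exact Ideal.mem_span_singleton.mp this
    obtain ⟨q', rfl⟩ := hq6
    have h4 : x * loc k (mono k (fexp 3) ^ e) ∈ Ideal.span {loc k (X 6) ^ 2} := by
      rw [hx, Ideal.mem_span_singleton]
      exact ⟨loc k q', by rw [← map_pow, ← map_mul]; congr 1; ring⟩
    exact (Ideal.mul_unit_mem_iff_mem _ (isUnit_loc_pow k e)).mp h4
  · rw [Ideal.span_singleton_le_iff_mem]
    obtain ⟨v, hv⟩ := isUnit_loc_pow k 2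
    obtain ⟨v', hv'⟩ := isUnit_loc_mono k ![3, 2, 2, 2, 0, 1, 0] 3 (by decide)
    have hp : mono k ![3, 2, 2, 2, 0, 1, 2] = X 6 ^ 2 * mono k ![3, 2, 2, 2, 0, 1, 0] := by
      have h5 : (![3, 2, 2, 2, 0, 1, 2] : Fin 7 → ℕ) =
          ![0, 0, 0, 0, 0, 0, 2] + ![3, 2, 2, 2, 0, 1, 0] := by decide
      rw [h5, mono_add]
      congr 1
      simp [mono, Fin.prod_univ_succ]
    set x : Localization.Away (mono k (fexp 3)) :=
      loc k (mono k ![3, 2, 2, 2, 0, 1, 2]) * ↑v⁻¹ with hx
    have hxmem : x ∈ preimageOfImage (weightedHomogeneousSubmodule k wts) (mono k (fexp 3))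
        (wt (fexp 3)) (Ideal.span {X 6}) := by
      apply Ideal.subset_span
      refine ⟨⟨2, mono k ![3, 2, 2, 2, 0, 1, 2], ?_, ?_⟩, ?_⟩
      · have h6 : wt ![3, 2, 2, 2, 0, 1, 2] = 2 • wt (fexp 3) := by decide
        rw [← h6]
        exact mono_homog k _
      · change x * loc k (mono k (fexp 3) ^ 2) = _
        rw [hx, ← hv, mul_assoc, Units.inv_mul, mul_one]
      · change x ∈ (Ideal.span {X 6}).map (loc k)
        rw [hideal, hx]
        apply Ideal.mul_mem_right
        rw [hp, map_mul, map_pow]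
        apply Ideal.mul_mem_right
        rw [pow_two]
        exact Ideal.mul_mem_right _ _ (Ideal.mem_span_singleton_self _)
    have h7 : loc k (X 6) ^ 2 = x * (v * ↑v'⁻¹) := by
      have : x * v = loc k (X 6) ^ 2 * v' := by
        rw [hx, mul_assoc, Units.inv_mul, mul_one, hp, map_mul, map_pow, ← hv']
      rw [← mul_assoc, this, mul_assoc, Units.mul_inv, mul_one]
    rw [h7]
    exact Ideal.mul_mem_right _ _ hxmem

theorem isPrime_loc : (Ideal.span {loc k (X 6)}).IsPrime := by
  have h : Ideal.span {loc k (X 6)} = (Ideal.span {X 6}).map (loc k) := by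
    rw [Ideal.map_span, Set.image_singleton]
  rw [h]
  apply IsLocalization.isPrime_of_isPrime_disjoint (Submonoid.powers (mono k (fexp 3)))
  · exact (Ideal.span_singleton_prime X_prime.ne_zero).mpr X_prime
  · rw [Set.disjoint_left]
    rintro _ ⟨n, rfl⟩ h
    exact X6_notDvd_f k n (Ideal.mem_span_singleton.mp h)

theorem not_strong (W : (stack k).Substack 1) : ¬ TorusStack.Strong W := by
  intro hst
  have hW := eq_span_t k W hst
  have h1 := hst (3 : Fin 4)
  change W.I.map (loc k) = preimageOfImage (weightedHomogeneousSubmodule k wts) (mono k (fexp 3))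
    (wt (fexp 3)) W.I at h1
  rw [hW, pre_three k] at h1
  have h2 : loc k (X 6) ∈ (Ideal.span {X 6}).map (loc k) :=
    Ideal.mem_map_of_mem _ (Ideal.mem_span_singleton_self _)
  rw [h1, Ideal.mem_span_singleton] at h2
  obtain ⟨c, hc⟩ := h2
  have hp := isPrime_loc k
  have h0 : loc k (X 6) ≠ 0 := by
    rw [Ne, map_eq_zero_iff _ (loc_injective k)]
    exact X_ne_zero 6
  have : IsDomain (Localization.Away (mono k (fexp 3))) :=
    IsLocalization.isDomain_localization
      (Submonoid.powers_le.mpr (mem_nonZeroDivisors_of_ne_zero (mono_ne_zero k (fexp 3))))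
  have h3 : loc k (X 6) * (loc k (X 6) * c) = loc k (X 6) * 1 := by
    rw [mul_one, ← mul_assoc, ← pow_two, ← hc]
  have h4 := mul_left_cancel₀ h0 h3
  apply hp.ne_top
  rw [Ideal.eq_top_iff_one, ← h4]
  exact Ideal.mul_mem_right _ _ (Ideal.mem_span_singleton_self _)

theorem map_eq_top (i : Fin 4) (hi : i ≠ 3) :
    (Ideal.span {X 6}).map
      (algebraMap (MvPolynomial (Fin 7) k) (Localization.Away (mono k (fexp i)))) = ⊤ := by
  have h6 : ∀ i : Fin 4, i ≠ 3 → ∀ l, (![0, 0, 0, 0, 0, 0, 1] : Fin 7 → ℕ) l ≤ fexp i l := by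
    decide
  have hmono : mono k ![0, 0, 0, 0, 0, 0, 1] = X 6 := by
    simp [mono, Fin.prod_univ_succ]
  have hdvd : (X 6 : MvPolynomial (Fin 7) k) ∣ mono k (fexp i) := by
    refine ⟨mono k (fexp i - ![0, 0, 0, 0, 0, 0, 1]), ?_⟩
    rw [← hmono, ← mono_add]
    congr 1
    funext l
    exact (Nat.add_sub_cancel' (h6 i hi l)).symm
  have hunit : IsUnit (algebraMap (MvPolynomial (Fin 7) k) (Localization.Away (mono k (fexp i)))
      (X 6)) := by
    apply isUnit_of_dvd_unit (map_dvd _ hdvd)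
    exact IsLocalization.Away.algebraMap_isUnit (mono k (fexp i))
  exact Ideal.eq_top_of_isUnit_mem _ (Ideal.mem_map_of_mem _ (Ideal.mem_span_singleton_self _))
    hunit

theorem pre_eq_top (i : Fin 4) (hi : i ≠ 3) :
    preimageOfImage (weightedHomogeneousSubmodule k wts) (mono k (fexp i))
    (wt (fexp i)) (Ideal.span {X 6}) = ⊤ :=
  TorusStack.preimageOfImage_eq_top (isWeightedHomogeneous_one k wts) _ _ _ (map_eq_top k i hi)

theorem radical_eq : (Ideal.span {loc k (X 6) ^ 2}).radical = Ideal.span {loc k (X 6)} := by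
  rw [← Ideal.span_singleton_pow, Ideal.radical_pow _ two_ne_zero, (isPrime_loc k).radical]

theorem topologicallyStrong : TorusStack.TopologicallyStrong (Zt k) := by
  intro i
  change (Ideal.span {X 6}).map (algebraMap (MvPolynomial (Fin 7) k)
    (Localization.Away (mono k (fexp i)))) =
    (preimageOfImage (weightedHomogeneousSubmodule k wts) (mono k (fexp i))
    (wt (fexp i)) (Ideal.span {X 6})).radical
  by_cases hi : (i : Fin 4) = 3
  · rw [hi, pre_three k, radical_eq k, Ideal.map_span, Set.image_singleton]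
  · rw [map_eq_top k i hi, pre_eq_top k i hi, Ideal.radical_top]

theorem noEmbedded (i : Fin 4) : NoEmbeddedAt (weightedHomogeneousSubmodule k wts)
    (mono k (fexp i)) (wt (fexp i)) (Ideal.span {X 6}) := by
  have hdom : IsDomain (Localization.Away (mono k (fexp 3))) :=
    IsLocalization.isDomain_localization
      (Submonoid.powers_le.mpr (mem_nonZeroDivisors_of_ne_zero (mono_ne_zero k (fexp 3))))
  have hp := isPrime_loc k
  have h0 : loc k (X 6) ≠ 0 := by
    rw [Ne, map_eq_zero_iff _ (loc_injective k)]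
    exact X_ne_zero 6
  have hprime : Prime (loc k (X 6)) := (Ideal.span_singleton_prime h0).mp hp
  intro Q hQ
  by_cases hi : i = 3
  · subst hi
    rw [pre_three k] at hQ ⊢
    have hprimary : (Ideal.span {loc k (X 6) ^ 2}).IsPrimary := by
      rw [Ideal.isPrimary_iff]
      refine ⟨fun h => ?_, fun {x y} hxy => ?_⟩
      · apply hp.ne_top
        rw [← radical_eq k, h, Ideal.radical_top]
      · rw [radical_eq k, Ideal.mem_span_singleton, Ideal.mem_span_singleton]
        rw [Ideal.mem_span_singleton] at hxy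
        by_cases hy : loc k (X 6) ∣ y
        · exact Or.inr hy
        · exact Or.inl (hprime.pow_dvd_of_dvd_mul_right 2 hy hxy)
    have hQr := IsAssociatedPrime.eq_radical hprimary hQ
    rw [hQr, radical_eq k]
    refine ⟨⟨hp, ?_⟩, ?_⟩
    · rw [Ideal.span_singleton_le_iff_mem, pow_two]
      exact Ideal.mul_mem_right _ _ (Ideal.mem_span_singleton_self _)
    · rintro P ⟨hP, hPle⟩ -
      rw [Ideal.span_singleton_le_iff_mem] at hPle ⊢
      exact hP.mem_of_pow_mem 2 hPle
  · rw [pre_eq_top k i hi] at hQ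
    exact absurd hQ not_isAssociatedPrime_of_subsingleton

theorem primarilyStrong : TorusStack.PrimarilyStrong (Zt k) :=
  ⟨topologicallyStrong k, fun i => noEmbedded k i⟩

theorem finiteStabilisers : TorusStack.FiniteStabilisers (Zt k) := by
  intro Q hQ hle hi
  change Ideal.span {(X 6 : MvPolynomial (Fin 7) k)} ≤ Q at hle
  change (AddSubgroup.closure (wts '' {j | X j ∉ Q})).FiniteIndex
  have hi' : ∃ i : Fin 4, mono k (fexp i) ∉ Q := by
    by_contra hcon
    push Not at hcon
    apply hi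
    change Ideal.span _ ≤ _
    rw [Ideal.span_le]
    rintro _ ⟨i, rfl⟩
    exact hcon i
  obtain ⟨i, hi⟩ := hi'
  rw [Ideal.span_singleton_le_iff_mem] at hle
  rw [mono_notMem_iff k hQ] at hi
  have h3 : ∀ i : Fin 4, fexp i 6 = 0 → i = 3 := by decide
  have hi3 : (i : Fin 4) = 3 := by
    apply h3
    by_contra h
    exact hi 6 h hle
  rw [hi3] at hi
  have hw : ∀ l : Fin 7, fexp 3 l ≠ 0 → wts l ∈ AddSubgroup.closure (wts '' {j | X j ∉ Q}) :=
    fun l hl => AddSubgroup.subset_closure ⟨l, hi l hl, rfl⟩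
  let φ : (Fin 4 → ℤ) →+ ZMod 2 :=
    (Int.castAddHom (ZMod 2)).comp (Pi.evalAddMonoidHom (fun _ => ℤ) 3)
  have hK : φ.ker.FiniteIndex := inferInstance
  have hle' : φ.ker ≤ AddSubgroup.closure (wts '' {j | X j ∉ Q}) := by
    intro v hv
    rw [AddMonoidHom.mem_ker] at hv
    change ((v 3 : ℤ) : ZMod 2) = 0 at hv
    rw [ZMod.intCast_zmod_eq_zero_iff_dvd] at hv
    obtain ⟨c, hc⟩ := hv
    have hv' : v = v 0 • wts 3 + (v 1 + 2 * c) • wts 4 + (v 2 + c) • wts 5 + (-c) • wts 0 := by
      funext i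
      fin_cases i
      · simp [wts]
      · simp [wts]; ring
      · simp [wts]
      · simp only [wts]
        change v 3 = _
        rw [hc]
        simp
        ring
    rw [hv']
    exact add_mem (add_mem (add_mem (zsmul_mem (hw 3 (by decide)) _)
      (zsmul_mem (hw 4 (by decide)) _)) (zsmul_mem (hw 5 (by decide)) _))
      (zsmul_mem (hw 0 (by decide)) _)
  exact AddSubgroup.finiteIndex_of_le hle'

theorem main : ∃ 𝒳 : TorusStack k, 𝒳.IsSeparated ∧ 𝒳.IsProperlyStable ∧
    ∃ (c : ℕ) (Z : 𝒳.Substack c), TorusStack.FiniteStabilisers Z ∧ TorusStack.PrimarilyStrong Z ∧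
      𝒳.cls Z ∉ 𝒳.chowStrong c := by
  refine ⟨stack k, separated k, properlyStable k, 1, Zt k, finiteStabilisers k,
    primarilyStrong k, ?_⟩
  have hbot : (stack k).chowStrong 1 = ⊥ := by
    unfold TorusStack.chowStrong
    rw [Submodule.span_eq_bot]
    rintro x ⟨W, hW, -⟩
    exact absurd hW (not_strong k W)
  rw [hbot, Submodule.mem_bot]
  apply (stack k).cls_ne_zero ((Int.castAddHom ℚ).comp (Pi.evalAddMonoidHom (fun _ => ℤ) 3))
    ((stack k).mixedIdeal_not_le (meets_all k)) (Zt k) (F := X 6) (α := wts 6) (X_ne_zero 6) rfl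
    (isWeightedHomogeneous_X k wts 6)
  change ((wts 6 3 : ℤ) : ℚ) ≠ 0
  have : wts 6 3 = 1 := rfl
  rw [this]
  norm_num

end Example

end Pool.Agent.StrongChow
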