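import Pool.Agent.StrongChow.ClassDeg

/-!
# General facts on torus quotient stacks
-/

open MvPolynomial

noncomputable section

namespace Pool.Agent.StrongChow

universe u

namespace TorusStack

variable {k : Type u} [Field k] (𝒳 : TorusStack k)

/-- A criterion for the moduli space to be separated. -/
theorem isSeparated_of
    (h : ∀ i j, ∃ (e e' N : ℕ) (g g' : MvPolynomial (Fin 𝒳.m) k),
      IsWeightedHomogeneous 𝒳.w g (e • 𝒳.d i) ∧
      IsWeightedHomogeneous 𝒳.w g' (e' • 𝒳.d j) ∧ g * g' = 𝒳.f i ^ e * 𝒳.f j ^ e' ∧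
      𝒳.f j ∣ (𝒳.f i * g) ^ N) : 𝒳.IsSeparated := by
  rintro i j x ⟨s, p, hp, hx⟩
  obtain ⟨e, e', N, g, g', hg, hg', hgg, c0, hc0⟩ := h i j
  set φ : MvPolynomial (Fin 𝒳.m) k →+* FractionRing (MvPolynomial (Fin 𝒳.m) k) :=
    algebraMap (MvPolynomial (Fin 𝒳.m) k) (FractionRing (MvPolynomial (Fin 𝒳.m) k)) with hφ
  have hinj : Function.Injective φ := IsFractionRing.injective (MvPolynomial (Fin 𝒳.m) k)
    (FractionRing (MvPolynomial (Fin 𝒳.m) k))
  have hp : IsWeightedHomogeneous 𝒳.w p (s • (𝒳.d i + 𝒳.d j)) := hp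
  have hfi : 𝒳.f i ≠ 0 := 𝒳.ne_zero i
  have hfj : 𝒳.f j ≠ 0 := 𝒳.ne_zero j
  have hggne : g * g' ≠ 0 := by rw [hgg]; exact mul_ne_zero (pow_ne_zero _ hfi) (pow_ne_zero _ hfj)
  have hgne : g ≠ 0 := left_ne_zero_of_mul hggne
  have hKi : φ (𝒳.f i) ≠ 0 := fun h => hfi ((map_eq_zero_iff _ hinj).mp h)
  have hKj : φ (𝒳.f j) ≠ 0 := fun h => hfj ((map_eq_zero_iff _ hinj).mp h)
  have homi : IsWeightedHomogeneous 𝒳.w (𝒳.f i) (𝒳.d i) := 𝒳.homogeneous i
  have homj : IsWeightedHomogeneous 𝒳.w (𝒳.f j) (𝒳.d j) := 𝒳.homogeneous j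
  set M := N * s with hM
  have hc : (𝒳.f i * g) ^ M = 𝒳.f j ^ s * c0 ^ s := by
    rw [hM, pow_mul, hc0, mul_pow]
  have hcne : 𝒳.f j ^ s * c0 ^ s ≠ 0 := by
    rw [← hc]; exact pow_ne_zero _ (mul_ne_zero hfi hgne)
  have hdeg : IsWeightedHomogeneous 𝒳.w (𝒳.f j ^ s * c0 ^ s) (M • (𝒳.d i + e • 𝒳.d i)) := by
    rw [← hc]
    exact (homi.mul hg).pow M
  obtain ⟨β, hβ, hβ'⟩ := degree_of_mul hdeg hcne (homj.pow s)
  set y : FractionRing (MvPolynomial (Fin 𝒳.m) k) := φ g / φ (𝒳.f i) ^ e with hy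
  set z : FractionRing (MvPolynomial (Fin 𝒳.m) k) := φ g' / φ (𝒳.f j) ^ e' with hz
  have hyz : y * z = 1 := by
    rw [hy, hz, div_mul_div_comm, ← map_mul, hgg, map_mul, map_pow, map_pow]
    exact div_self (mul_ne_zero (pow_ne_zero _ hKi) (pow_ne_zero _ hKj))
  have hx2 : x = (x * y ^ M) * z ^ M := by
    rw [mul_assoc, ← mul_pow, hyz, one_pow, mul_one]
  rw [hx2]
  apply Subring.mul_mem
  · apply Subring.subset_closure
    left
    refine ⟨s + e * M + M, p * c0 ^ s, ?_, ?_⟩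
    · have h1 := hp.mul hβ
      have h2 : s • (𝒳.d i + 𝒳.d j) + β = (s + e * M + M) • 𝒳.d i := by
        rw [smul_add, add_assoc, hβ', smul_add, smul_smul, add_smul, add_smul, mul_comm M e]
        abel
      rw [h2] at h1
      exact h1
    · have e1 : y ^ M * φ (𝒳.f i) ^ (e * M) = φ g ^ M := by
        rw [hy, div_pow, ← pow_mul, div_mul_cancel₀ _ (pow_ne_zero _ hKi)]
      rw [map_pow, map_mul, pow_add, pow_add]
      have hx' : x * (φ (𝒳.f i) ^ s * φ (𝒳.f j) ^ s) = φ p := by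
        rw [← hx, map_pow, map_mul, mul_pow]
      have hc' : (φ (𝒳.f i) * φ g) ^ M = φ (𝒳.f j) ^ s * φ (c0 ^ s) := by
        rw [← map_mul, ← map_pow, hc, map_mul, map_pow]
      calc x * y ^ M * (φ (𝒳.f i) ^ s * φ (𝒳.f i) ^ (e * M) * φ (𝒳.f i) ^ M)
          = x * φ (𝒳.f i) ^ s * ((y ^ M * φ (𝒳.f i) ^ (e * M)) * φ (𝒳.f i) ^ M) := by ring
        _ = x * φ (𝒳.f i) ^ s * ((φ (𝒳.f i) * φ g) ^ M) := by rw [e1, mul_pow]; ring
        _ = (x * (φ (𝒳.f i) ^ s * φ (𝒳.f j) ^ s)) * φ (c0 ^ s) := by rw [hc']; ring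
        _ = φ p * φ (c0 ^ s) := by rw [hx']
  · apply Subring.pow_mem
    apply Subring.subset_closure
    right
    refine ⟨e', g', hg', ?_⟩
    rw [hz, map_pow, div_mul_cancel₀ _ (pow_ne_zero _ hKj)]

/-- On a chart where the ideal is everything, so is the ideal of the preimage of the image. -/
theorem preimageOfImage_eq_top {S : Type u} [CommRing S] [Algebra k S] {n : ℕ}
    {𝒜 : (Fin n → ℤ) → Submodule k S} (h1 : (1 : S) ∈ 𝒜 0) (f : S) (d : Fin n → ℤ) (P : Ideal S)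
    (h : P.map (algebraMap S (Localization.Away f)) = ⊤) : preimageOfImage 𝒜 f d P = ⊤ := by
  rw [Ideal.eq_top_iff_one]
  apply Ideal.subset_span
  refine ⟨⟨0, 1, ?_, by simp⟩, by rw [h]; trivial⟩
  rwa [zero_smul]

/-- If a divisor `{F = 0}` is strong on the chart `U_i` and no power of `f_i` is in the ideal
generated by the coordinates in `J`, then some monomial in the other coordinates has degree
`e • deg f_i - deg F`. -/
theorem degree_of_strong {𝒳 : TorusStack k} (Z : 𝒳.Substack 1) {F : MvPolynomial (Fin 𝒳.m) k}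
    {δ : Fin 𝒳.n → ℤ} (hF : Prime F) (hZ : Z.I = Ideal.span {F})
    (hδ : IsWeightedHomogeneous 𝒳.w F δ) (i : Fin 𝒳.r)
    (hst : StrongAt 𝒳.grading (𝒳.f i) (𝒳.d i) Z.I)
    (J : Set (Fin 𝒳.m))
    (hJ : ∀ n, 𝒳.f i ^ n ∉ Ideal.span (X '' J : Set (MvPolynomial (Fin 𝒳.m) k))) :
    ∃ (e : ℕ) (s : Fin 𝒳.m →₀ ℕ), (∀ j ∈ J, s j = 0) ∧
      δ + Finsupp.weight 𝒳.w s = e • 𝒳.d i := by
  by_contra hcon
  push Not at hcon
  set φ : MvPolynomial (Fin 𝒳.m) k →+* Localization.Away (𝒳.f i) :=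
    algebraMap (MvPolynomial (Fin 𝒳.m) k) (Localization.Away (𝒳.f i)) with hφ
  have hinj : Function.Injective φ := IsLocalization.injective (Localization.Away (𝒳.f i))
    (Submonoid.powers_le.mpr (mem_nonZeroDivisors_of_ne_zero (𝒳.ne_zero i)))
  have homi : IsWeightedHomogeneous 𝒳.w (𝒳.f i) (𝒳.d i) := 𝒳.homogeneous i
  have hle : preimageOfImage 𝒳.grading (𝒳.f i) (𝒳.d i) Z.I ≤
      (Ideal.span {F} * Ideal.span (X '' J : Set (MvPolynomial (Fin 𝒳.m) k))).map φ := by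
    unfold preimageOfImage
    rw [Ideal.span_le]
    rintro x ⟨⟨e, g, hg, hx⟩, hxI⟩
    have hg : IsWeightedHomogeneous 𝒳.w g (e • 𝒳.d i) := hg
    have h1 : φ g ∈ Z.I.map φ := by
      rw [← hx]
      exact Ideal.mul_mem_right _ _ hxI
    obtain ⟨⟨⟨a, ha⟩, ⟨b, n, rfl⟩⟩, hab⟩ :=
      (IsLocalization.mem_map_algebraMap_iff (Submonoid.powers (𝒳.f i))
        (Localization.Away (𝒳.f i))).mp h1
    simp only at hab
    rw [← hφ, ← map_mul] at hab
    have hab' := hinj hab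
    rw [hZ] at ha
    obtain ⟨q, hq⟩ := Ideal.mem_span_singleton.mp ha
    have hgf : IsWeightedHomogeneous 𝒳.w (F * q) (e • 𝒳.d i + n • 𝒳.d i) := by
      rw [← hq, ← hab']
      exact hg.mul (homi.pow n)
    have hqJ : q ∈ Ideal.span (X '' J : Set (MvPolynomial (Fin 𝒳.m) k)) := by
      by_cases hq0 : q = 0
      · rw [hq0]; exact Ideal.zero_mem _
      obtain ⟨β, hβ, hβ'⟩ := degree_of_mul hgf (mul_ne_zero hF.ne_zero hq0) hδ
      rw [mem_ideal_span_X_image]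
      intro s hs
      by_contra hs'
      push Not at hs'
      apply hcon (e + n) s hs'
      rw [add_smul, ← hβ', hβ (mem_support_iff.mp hs)]
    have hunit : IsUnit (φ (𝒳.f i ^ (e + n))) :=
      IsLocalization.map_units (Localization.Away (𝒳.f i))
        (⟨_, e + n, rfl⟩ : Submonoid.powers (𝒳.f i))
    have h2 : x * φ (𝒳.f i ^ (e + n)) = φ (F * q) := by
      rw [← hq, ← hab', map_mul, ← hx, pow_add, map_mul]
      ring
    have h3 : φ (F * q) ∈
        (Ideal.span {F} * Ideal.span (X '' J : Set (MvPolynomial (Fin 𝒳.m) k))).map φ :=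
      Ideal.mem_map_of_mem _ (Ideal.mul_mem_mul (Ideal.mem_span_singleton_self F) hqJ)
    rw [← h2] at h3
    exact (Ideal.mul_unit_mem_iff_mem _ hunit).mp h3
  have hFI : φ F ∈ Z.I.map φ := Ideal.mem_map_of_mem _ (by
    rw [hZ]; exact Ideal.mem_span_singleton_self F)
  unfold StrongAt at hst
  rw [hst] at hFI
  obtain ⟨⟨⟨a, ha⟩, ⟨b, n, rfl⟩⟩, hab⟩ :=
    (IsLocalization.mem_map_algebraMap_iff (Submonoid.powers (𝒳.f i))
      (Localization.Away (𝒳.f i))).mp (hle hFI)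
  simp only at hab
  rw [← hφ, ← map_mul] at hab
  have hab' := hinj hab
  rw [Ideal.mem_span_singleton_mul] at ha
  obtain ⟨c, hc, hcF⟩ := ha
  rw [← hcF] at hab'
  have := mul_left_cancel₀ hF.ne_zero hab'
  exact hJ n (this ▸ hc)

end TorusStack

end Pool.Agent.StrongChow
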